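import Pool.Agent.Run7.h678.KM.Reg

set_option autoImplicit false

namespace Run7.h678.KM

open Finset

section four
variable {α β : Type*} [Fintype α] [Fintype β] [DecidableEq α] [DecidableEq β]

/-- the local configuration: `f`, `f'` give the missing pairs between the two sets, `P`, `P'` the
missing pairs of the further vertex, `G` the missing mixed triples of the further vertex -/
structure Conf (f : β → Finset α) (f' : α → Finset β) (P : Finset α) (P' : Finset β)
    (G : Finset (α × β)) : Prop where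
  hc : Fintype.card α = Fintype.card β
  hf : ∀ y, (f y).card = 2
  hf' : ∀ b, (f' b).card = 2
  hP : P.card = 2
  hP' : P'.card = 2
  H1 : ∀ y y', y ≠ y' → ∀ z, z ∈ f y → z ∈ f y' → ∃ b, b ≠ z ∧ f' b = {y, y'}
  H1' : ∀ b b', b ≠ b' → ∀ y, y ∈ f' b → y ∈ f' b' → ∃ v, v ≠ y ∧ f v = {b, b'}
  H3 : ∀ y z, z ∈ P → z ∈ f y → ∃ b, b ≠ z ∧ (b, y) ∈ G
  H3' : ∀ b y, y ∈ P' → y ∈ f' b → ∃ v, v ≠ y ∧ (b, v) ∈ G
  H4 : ∀ z u, z ∈ P → u ≠ z → ∀ y y', y ≠ y' → z ∈ f y → u ∈ f y' → P' ≠ {y, y'} →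
    (∀ b, f' b ≠ {y, y'}) → ∃ b, b ≠ z ∧ b ≠ u ∧ ((b, y) ∈ G ∨ (b, y') ∈ G)
  H4' : ∀ y v, y ∈ P' → v ≠ y → ∀ b b', b ≠ b' → y ∈ f' b → v ∈ f' b' → P ≠ {b, b'} →
    (∀ w, f w ≠ {b, b'}) → ∃ w, w ≠ y ∧ w ≠ v ∧ ((b, w) ∈ G ∨ (b', w) ∈ G)

theorem Conf.swap {f : β → Finset α} {f' : α → Finset β} {P : Finset α} {P' : Finset β}
    {G : Finset (α × β)} (h : Conf f f' P P' G) :
    Conf f' f P' P (G.map (Equiv.prodComm α β).toEmbedding) where
  hc := h.hc.symm
  hf := h.hf'
  hf' := h.hf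
  hP := h.hP'
  hP' := h.hP
  H1 := h.H1'
  H1' := h.H1
  H3 := by simp only [mem_map_equiv]; exact h.H3'
  H3' := by simp only [mem_map_equiv]; exact h.H3
  H4 := by simp only [mem_map_equiv]; exact h.H4'
  H4' := by simp only [mem_map_equiv]; exact h.H4

theorem card_le_of_nbr {G : Finset (α × β)} {s : Finset β} (hs : ∀ y ∈ s, ∃ b, (b, y) ∈ G) :
    s.card ≤ G.card := by
  refine (card_le_card (t := G.image Prod.snd) ?_).trans card_image_le
  intro y hy
  obtain ⟨b, hb⟩ := hs y hy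
  exact mem_image.mpr ⟨(b, y), hb, rfl⟩

variable {f : β → Finset α} {f' : α → Finset β} {P : Finset α} {P' : Finset β}
  {G : Finset (α × β)}

theorem Conf.reg (h : Conf f f' P P' G) : (∀ z, deg f z = 2) ∧ (∀ b, Adj f (f' b)) := by
  refine two_regular h.hc h.hf h.hf' ?_ ?_
  · rintro y y' hy ⟨z, hz⟩
    rw [mem_inter] at hz
    obtain ⟨b, -, hb⟩ := h.H1 y y' hy z hz.1 hz.2
    exact ⟨b, hb⟩
  · rintro b b' hb ⟨y, hy⟩
    rw [mem_inter] at hy
    obtain ⟨v, -, hv⟩ := h.H1' b b' hb y hy.1 hy.2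
    exact ⟨v, hv⟩

/-- the two indices at a point -/
theorem Conf.two (h : Conf f f' P P' G) (z : α) :
    ∃ y y', y ≠ y' ∧ z ∈ f y ∧ z ∈ f y' ∧ ∀ v, z ∈ f v → v = y ∨ v = y' := by
  obtain ⟨y, y', hne, he⟩ := card_eq_two.mp (h.reg.1 z)
  have hm : ∀ v, z ∈ f v ↔ v ∈ ({y, y'} : Finset β) := by
    intro v
    rw [← he]
    simp
  refine ⟨y, y', hne, (hm y).mpr (by simp), (hm y').mpr (by simp), fun v hv => ?_⟩
  simpa using (hm v).mp hv

/-- the other index at a point -/
theorem Conf.other (h : Conf f f' P P' G) {z : α} {y : β} (hy : z ∈ f y) :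
    ∃ y', y' ≠ y ∧ z ∈ f y' ∧ ∀ v, z ∈ f v → v = y ∨ v = y' := by
  obtain ⟨a, b, hab, ha, hb, hall⟩ := h.two z
  rcases hall y hy with rfl | rfl
  · exact ⟨b, hab.symm, hb, hall⟩
  · exact ⟨a, hab, ha, fun v hv => (hall v hv).symm⟩

/-- values of `f'` are adjacent pairs -/
theorem Conf.adj (h : Conf f f' P P' G) {y y' : β} (hd : Disjoint (f y) (f y')) (b : α) :
    f' b ≠ {y, y'} := by
  intro hb
  obtain ⟨v, v', hne, he, z, hz⟩ := h.reg.2 b
  rw [mem_inter] at hz
  rw [hb] at he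
  have hv : v ∈ ({y, y'} : Finset β) := by rw [he]; simp
  have hv' : v' ∈ ({y, y'} : Finset β) := by rw [he]; simp
  simp only [mem_insert, mem_singleton] at hv hv'
  rw [disjoint_left] at hd
  rcases hv with rfl | rfl <;> rcases hv' with rfl | rfl
  · exact hne rfl
  · exact hd hz.1 hz.2
  · exact hd hz.2 hz.1
  · exact hne rfl

theorem Conf.mem_range (h : Conf f f' P P' G) (hG : G.card ≤ 3) : ∃ y, f y = P := by
  by_contra hno
  push Not at hno
  obtain ⟨z, w, hzw, hPe⟩ := card_eq_two.mp h.hP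
  obtain ⟨y1, y2, h12, hz1, hz2, -⟩ := h.two z
  obtain ⟨y3, y4, h34, hw3, hw4, -⟩ := h.two w
  have hnb : ∀ y, z ∈ f y → w ∈ f y → False := by
    intro y h1 h2
    refine hno y (eq_of_subset_of_card_le ?_ ?_).symm
    · rw [hPe]; intro t ht
      simp only [mem_insert, mem_singleton] at ht
      rcases ht with rfl | rfl <;> assumption
    · rw [h.hf, h.hP]
  have hs := card_le_of_nbr (G := G) (s := {y1, y2, y3, y4}) (by
    intro y hy
    simp only [mem_insert, mem_singleton] at hy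
    have hzP : z ∈ P := by rw [hPe]; simp
    have hwP : w ∈ P := by rw [hPe]; simp
    rcases hy with rfl | rfl | rfl | rfl
    · obtain ⟨b, -, hb⟩ := h.H3 _ z hzP hz1; exact ⟨b, hb⟩
    · obtain ⟨b, -, hb⟩ := h.H3 _ z hzP hz2; exact ⟨b, hb⟩
    · obtain ⟨b, -, hb⟩ := h.H3 _ w hwP hw3; exact ⟨b, hb⟩
    · obtain ⟨b, -, hb⟩ := h.H3 _ w hwP hw4; exact ⟨b, hb⟩)
  have h13 : y1 ≠ y3 := by rintro rfl; exact hnb _ hz1 hw3
  have h14 : y1 ≠ y4 := by rintro rfl; exact hnb _ hz1 hw4
  have h23 : y2 ≠ y3 := by rintro rfl; exact hnb _ hz2 hw3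
  have h24 : y2 ≠ y4 := by rintro rfl; exact hnb _ hz2 hw4
  have : ({y1, y2, y3, y4} : Finset β).card = 4 := by
    rw [card_insert_of_notMem (by simp [h12, h13, h14]),
      card_insert_of_notMem (by simp [h23, h24]), card_insert_of_notMem (by simp [h34]),
      card_singleton]
  omega

/-- a step used twice: if `y` has the only neighbour `u`, `z ∈ P`, `z ∈ f y`, `u ≠ z` then each
`y'` with `u ∈ f y'` and `f y` disjoint from `f y'` has a neighbour different from `z`, `u` -/
theorem Conf.step (h : Conf f f' P P' G) (hr : ∃ b, f' b = P') {y y' : β} {z u : α} (hz : z ∈ P)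
    (hzy : z ∈ f y) (hu : u ≠ z) (huy : u ∈ f y') (hd : Disjoint (f y) (f y'))
    (hN : ∀ b, (b, y) ∈ G → b = u) : ∃ b, (b, y') ∈ G := by
  have hne : y ≠ y' := by
    rintro rfl
    exact disjoint_left.mp hd hzy hzy
  obtain ⟨b0, hb0⟩ := hr
  obtain ⟨b, hbz, hbu, hb⟩ := h.H4 z u hz hu y y' hne hzy huy
    (by rw [← hb0]; exact h.adj hd b0) (h.adj hd)
  rcases hb with hb | hb
  · exact absurd (hN b hb) hbu
  · exact ⟨b, hb⟩

theorem eq_pair {p : Finset α} (hp : p.card = 2) {a b : α} (hab : a ≠ b) (ha : a ∈ p)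
    (hb : b ∈ p) : p = {a, b} := by
  refine (eq_of_subset_of_card_le ?_ ?_).symm
  · intro t ht
    simp only [mem_insert, mem_singleton] at ht
    rcases ht with rfl | rfl <;> assumption
  · rw [hp, card_pair hab]

/-- the double case -/
theorem Conf.double (h : Conf f f' P P' G) (hG : G.card ≤ 3) (hr : ∃ b, f' b = P')
    {y0 y1 : β} (h01 : y0 ≠ y1) (h0 : f y0 = P) (h1 : f y1 = P) {u : α}
    (hN : ∀ b, (b, y0) ∈ G → b = u) : False := by
  obtain ⟨z, w, hzw, hPe⟩ := card_eq_two.mp h.hP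
  have hzP : z ∈ P := by rw [hPe]; simp
  have hwP : w ∈ P := by rw [hPe]; simp
  obtain ⟨b, hbz, hb⟩ := h.H3 y0 z hzP (h0 ▸ hzP)
  have huz : u ≠ z := by rw [← hN b hb]; exact hbz
  have hu0 : (u, y0) ∈ G := by rw [← hN b hb]; exact hb
  obtain ⟨b', hbw, hb'⟩ := h.H3 y0 w hwP (h0 ▸ hwP)
  have huw : u ≠ w := by rw [← hN b' hb']; exact hbw
  obtain ⟨b1, -, hb1⟩ := h.H3 y1 z hzP (h1 ▸ hzP)
  obtain ⟨v, v', hvv, hv, hv', -⟩ := h.two u
  have hz2 : ∀ y, z ∈ f y → y = y0 ∨ y = y1 := by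
    intro y hy
    obtain ⟨a, ha, haz, hall⟩ := h.other (y := y0) (z := z) (h0 ▸ hzP)
    rcases hall y1 (h1 ▸ hzP) with e | e
    · exact absurd e.symm h01
    · rw [← e] at hall; exact hall y hy
  have hw2 : ∀ y, w ∈ f y → y = y0 ∨ y = y1 := by
    intro y hy
    obtain ⟨a, ha, haz, hall⟩ := h.other (y := y0) (z := w) (h0 ▸ hwP)
    rcases hall y1 (h1 ▸ hwP) with e | e
    · exact absurd e.symm h01
    · rw [← e] at hall; exact hall y hy
  have huP : u ∉ P := by rw [hPe]; simp [huz, huw]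
  have hnot : ∀ y, u ∈ f y → y ≠ y0 ∧ y ≠ y1 := by
    intro y hy
    constructor
    · rintro rfl; rw [h0] at hy; exact huP hy
    · rintro rfl; rw [h1] at hy; exact huP hy
  have hdis : ∀ y, u ∈ f y → Disjoint (f y0) (f y) := by
    intro y hy
    rw [h0, hPe, disjoint_left]
    intro t ht hty
    simp only [mem_insert, mem_singleton] at ht
    rcases ht with rfl | rfl
    · rcases hz2 y hty with e | e
      · exact (hnot y hy).1 e
      · exact (hnot y hy).2 e
    · rcases hw2 y hty with e | e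
      · exact (hnot y hy).1 e
      · exact (hnot y hy).2 e
  have hs := card_le_of_nbr (G := G) (s := {y0, y1, v, v'}) (by
    intro y hy
    simp only [mem_insert, mem_singleton] at hy
    rcases hy with rfl | rfl | rfl | rfl
    · exact ⟨u, hu0⟩
    · exact ⟨b1, hb1⟩
    · exact h.step hr hzP (h0 ▸ hzP) huz hv (hdis _ hv) hN
    · exact h.step hr hzP (h0 ▸ hzP) huz hv' (hdis _ hv') hN)
  have : ({y0, y1, v, v'} : Finset β).card = 4 := by
    rw [card_insert_of_notMem (by simp [h01, (hnot v hv).1.symm, (hnot v' hv').1.symm]),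
      card_insert_of_notMem (by simp [(hnot v hv).2.symm, (hnot v' hv').2.symm]),
      card_insert_of_notMem (by simp [hvv]), card_singleton]
  omega

theorem Conf.tri (h : Conf f f' P P' G) (hG : G.card ≤ 3) (hr : ∃ b, f' b = P') :
    ∃ (y0 y1 y2 : β) (z w u a b : α), y0 ≠ y1 ∧ y0 ≠ y2 ∧ y1 ≠ y2 ∧ z ≠ w ∧ z ≠ u ∧ w ≠ u ∧
      P = {z, w} ∧ f y0 = {z, w} ∧ f y1 = {z, u} ∧ f y2 = {w, u} ∧
      G = {(u, y0), (a, y1), (b, y2)} ∧ (a = u ∨ a = w) ∧ (b = u ∨ b = z) := by
  obtain ⟨y0, h0⟩ := h.mem_range hG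
  obtain ⟨z, w, hzw, hPe⟩ := card_eq_two.mp h.hP
  have hzP : z ∈ P := by rw [hPe]; simp
  have hwP : w ∈ P := by rw [hPe]; simp
  obtain ⟨y1, h10, hz1, hz⟩ := h.other (y := y0) (z := z) (h0 ▸ hzP)
  obtain ⟨y2, h20, hw2, hw⟩ := h.other (y := y0) (z := w) (h0 ▸ hwP)
  by_cases h12 : y1 = y2
  · exfalso
    subst h12
    have hf1 : f y1 = P := by rw [hPe]; exact eq_pair (h.hf y1) hzw hz1 hw2
    by_cases hd : ∃ u, ∀ b, (b, y0) ∈ G → b = u
    · obtain ⟨u, hu⟩ := hd
      exact h.double hG hr h10.symm h0 hf1 hu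
    by_cases hd' : ∃ u, ∀ b, (b, y1) ∈ G → b = u
    · obtain ⟨u, hu⟩ := hd'
      exact h.double hG hr h10 hf1 h0 hu
    push Not at hd hd'
    obtain ⟨a, ha, -⟩ := hd z
    obtain ⟨b, hb, hba⟩ := hd a
    obtain ⟨c, hc, -⟩ := hd' z
    obtain ⟨e, he, hec⟩ := hd' c
    have hsub : ({(a, y0), (b, y0), (c, y1), (e, y1)} : Finset (α × β)) ⊆ G := by
      intro t ht
      simp only [mem_insert, mem_singleton] at ht
      rcases ht with rfl | rfl | rfl | rfl <;> assumption
    have hcard : ({(a, y0), (b, y0), (c, y1), (e, y1)} : Finset (α × β)).card = 4 := by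
      rw [card_insert_of_notMem (by simp [hba.symm, h10.symm]),
        card_insert_of_notMem (by simp [h10.symm]),
        card_insert_of_notMem (by simp [hec.symm]), card_singleton]
    have := card_le_card hsub
    omega
  · -- three distinct indices
    obtain ⟨u, hu, hug⟩ := h.H3 y0 z hzP (h0 ▸ hzP)
    obtain ⟨a, haz, hag⟩ := h.H3 y1 z hzP hz1
    obtain ⟨b, hbw, hbg⟩ := h.H3 y2 w hwP hw2
    have hsub : ({(u, y0), (a, y1), (b, y2)} : Finset (α × β)) ⊆ G := by
      intro t ht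
      simp only [mem_insert, mem_singleton] at ht
      rcases ht with rfl | rfl | rfl <;> assumption
    have hcard : ({(u, y0), (a, y1), (b, y2)} : Finset (α × β)).card = 3 := by
      rw [card_insert_of_notMem (by simp [h10.symm, h20.symm]),
        card_insert_of_notMem (by simp [h12]), card_singleton]
    have hGe : G = {(u, y0), (a, y1), (b, y2)} :=
      (eq_of_subset_of_card_le hsub (by omega)).symm
    have hmem : ∀ c y, (c, y) ∈ G → (c = u ∧ y = y0) ∨ (c = a ∧ y = y1) ∨ (c = b ∧ y = y2) := by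
      intro c y hcy
      rw [hGe] at hcy
      simpa using hcy
    have hN0 : ∀ c, (c, y0) ∈ G → c = u := by
      intro c hc
      rcases hmem c y0 hc with ⟨e, -⟩ | ⟨-, e⟩ | ⟨-, e⟩
      · exact e
      · exact absurd e.symm h10
      · exact absurd e.symm h20
    have hN1 : ∀ c, (c, y1) ∈ G → c = a := by
      intro c hc
      rcases hmem c y1 hc with ⟨-, e⟩ | ⟨e, -⟩ | ⟨-, e⟩
      · exact absurd e h10
      · exact e
      · exact absurd e h12
    have hN2 : ∀ c, (c, y2) ∈ G → c = b := by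
      intro c hc
      rcases hmem c y2 hc with ⟨-, e⟩ | ⟨-, e⟩ | ⟨e, -⟩
      · exact absurd e h20
      · exact absurd e.symm h12
      · exact e
    have hNo : ∀ y, y ≠ y0 → y ≠ y1 → y ≠ y2 → ¬ ∃ c, (c, y) ∈ G := by
      rintro y e0 e1 e2 ⟨c, hc⟩
      rcases hmem c y hc with ⟨-, e⟩ | ⟨-, e⟩ | ⟨-, e⟩
      · exact e0 e
      · exact e1 e
      · exact e2 e
    obtain ⟨b', hb'w, hb'⟩ := h.H3 y0 w hwP (h0 ▸ hwP)
    have huw : u ≠ w := by rw [← hN0 b' hb']; exact hb'w
    have huP : u ∉ P := by rw [hPe]; simp [hu, huw]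
    have hu0 : u ∉ f y0 := by rw [h0]; exact huP
    -- each index at u is y1 or y2
    have hut : ∀ y, u ∈ f y → y = y1 ∨ y = y2 := by
      intro y hy
      by_contra hcon
      push Not at hcon
      have hy0 : y ≠ y0 := by rintro rfl; exact hu0 hy
      refine hNo y hy0 hcon.1 hcon.2 ?_
      refine h.step hr hzP (h0 ▸ hzP) hu hy ?_ hN0
      rw [h0, hPe, disjoint_left]
      intro t ht hty
      simp only [mem_insert, mem_singleton] at ht
      rcases ht with rfl | rfl
      · rcases hz y hty with e | e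
        · exact hy0 e
        · exact hcon.1 e
      · rcases hw y hty with e | e
        · exact hy0 e
        · exact hcon.2 e
    obtain ⟨v, v', hvv, hv, hv', -⟩ := h.two u
    have hu12 : u ∈ f y1 ∧ u ∈ f y2 := by
      rcases hut v hv with e | e <;> rcases hut v' hv' with e' | e'
      · exact absurd (e.trans e'.symm) hvv
      · exact ⟨e ▸ hv, e' ▸ hv'⟩
      · exact ⟨e' ▸ hv', e ▸ hv⟩
      · exact absurd (e.trans e'.symm) hvv
    have hf1 : f y1 = {z, u} := eq_pair (h.hf y1) hu.symm hz1 hu12.1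
    have hf2 : f y2 = {w, u} := eq_pair (h.hf y2) huw.symm hw2 hu12.2
    have ha : a = u ∨ a = w := by
      by_contra hcon
      push Not at hcon
      obtain ⟨y3, y4, -, h3, -, -⟩ := h.two a
      have e0 : y3 ≠ y0 := by
        rintro rfl
        rw [h0, hPe] at h3
        simp only [mem_insert, mem_singleton] at h3
        rcases h3 with e | e
        · exact haz e
        · exact hcon.2 e
      have e1 : y3 ≠ y1 := by
        rintro rfl
        rw [hf1] at h3
        simp only [mem_insert, mem_singleton] at h3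
        rcases h3 with e | e
        · exact haz e
        · exact hcon.1 e
      have e2 : y3 ≠ y2 := by
        rintro rfl
        rw [hf2] at h3
        simp only [mem_insert, mem_singleton] at h3
        rcases h3 with e | e
        · exact hcon.2 e
        · exact hcon.1 e
      refine hNo y3 e0 e1 e2 (h.step hr hzP hz1 haz h3 ?_ hN1)
      rw [hf1, disjoint_left]
      intro t ht hty
      simp only [mem_insert, mem_singleton] at ht
      rcases ht with rfl | rfl
      · rcases hz y3 hty with e | e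
        · exact e0 e
        · exact e1 e
      · rcases hut y3 hty with e | e
        · exact e1 e
        · exact e2 e
    have hb : b = u ∨ b = z := by
      by_contra hcon
      push Not at hcon
      obtain ⟨y3, y4, -, h3, -, -⟩ := h.two b
      have e0 : y3 ≠ y0 := by
        rintro rfl
        rw [h0, hPe] at h3
        simp only [mem_insert, mem_singleton] at h3
        rcases h3 with e | e
        · exact hcon.2 e
        · exact hbw e
      have e1 : y3 ≠ y1 := by
        rintro rfl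
        rw [hf1] at h3
        simp only [mem_insert, mem_singleton] at h3
        rcases h3 with e | e
        · exact hcon.2 e
        · exact hcon.1 e
      have e2 : y3 ≠ y2 := by
        rintro rfl
        rw [hf2] at h3
        simp only [mem_insert, mem_singleton] at h3
        rcases h3 with e | e
        · exact hbw e
        · exact hcon.1 e
      refine hNo y3 e0 e1 e2 (h.step hr hwP hw2 hbw h3 ?_ hN2)
      rw [hf2, disjoint_left]
      intro t ht hty
      simp only [mem_insert, mem_singleton] at ht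
      rcases ht with rfl | rfl
      · rcases hw y3 hty with e | e
        · exact e0 e
        · exact e2 e
      · rcases hut y3 hty with e | e
        · exact e1 e
        · exact e2 e
    exact ⟨y0, y1, y2, z, w, u, a, b, h10.symm, h20.symm, h12, hzw, hu.symm, huw.symm, hPe,
      h0.trans hPe, hf1, hf2, hGe, ha, hb⟩

/-- **The local lemma**: at least four missing mixed triples. -/
theorem Conf.four_le (h : Conf f f' P P' G) : 4 ≤ G.card := by
  by_contra hcon
  push Not at hcon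
  have hG : G.card ≤ 3 := by omega
  have hG' : (G.map (Equiv.prodComm α β).toEmbedding).card ≤ 3 := by rw [card_map]; exact hG
  obtain ⟨y0, y1, y2, z, w, u, a, b, h01, h02, h12, hzw, hzu, hwu, hP, hf0, hf1, hf2, hGe,
    ha, hb⟩ := h.tri hG (h.swap.mem_range hG')
  obtain ⟨b0, b1, b2, v1, v2, v3, c, d, k01, k02, k12, hv12, hv13, hv23, hP', hg0, hg1, hg2, hGe',
    hc, hd⟩ := h.swap.tri hG' (h.mem_range hG)
  have hmem : ∀ s y, (s, y) ∈ G ↔ (s = u ∧ y = y0) ∨ (s = a ∧ y = y1) ∨ (s = b ∧ y = y2) := by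
    intro s y
    rw [hGe]; simp
  have hmem' : ∀ s y, (s, y) ∈ G ↔ (y = v3 ∧ s = b0) ∨ (y = c ∧ s = b1) ∨ (y = d ∧ s = b2) := by
    intro s y
    have : (s, y) ∈ G ↔ (y, s) ∈ G.map (Equiv.prodComm α β).toEmbedding := by
      rw [mem_map_equiv]; rfl
    rw [this, hGe']; simp
  -- all first coordinates are distinct
  have hs1 : ∀ s y y', (s, y) ∈ G → (s, y') ∈ G → y = y' := by
    intro s y y' m m'
    rw [hmem'] at m m'
    rcases m with ⟨e1, e2⟩ | ⟨e1, e2⟩ | ⟨e1, e2⟩ <;>
      rcases m' with ⟨e3, e4⟩ | ⟨e3, e4⟩ | ⟨e3, e4⟩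
    · rw [e1, e3]
    · exact absurd (e2.symm.trans e4) k01
    · exact absurd (e2.symm.trans e4) k02
    · exact absurd (e4.symm.trans e2) k01
    · rw [e1, e3]
    · exact absurd (e2.symm.trans e4) k12
    · exact absurd (e4.symm.trans e2) k02
    · exact absurd (e4.symm.trans e2) k12
    · rw [e1, e3]
  have m0 : (u, y0) ∈ G := (hmem _ _).mpr (Or.inl ⟨rfl, rfl⟩)
  have m1 : (a, y1) ∈ G := (hmem _ _).mpr (Or.inr (Or.inl ⟨rfl, rfl⟩))
  have m2 : (b, y2) ∈ G := (hmem _ _).mpr (Or.inr (Or.inr ⟨rfl, rfl⟩))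
  have ha' : a = w := by
    rcases ha with rfl | rfl
    · exact absurd (hs1 _ _ _ m0 m1) h01
    · rfl
  have hb' : b = z := by
    rcases hb with rfl | rfl
    · exact absurd (hs1 _ _ _ m0 m2) h02
    · rfl
  subst ha' hb'
  -- the only index with value P' is b0
  have huniq : ∀ s, f' s = {v1, v2} → s = b0 := by
    intro s hs
    obtain ⟨t1, ht1, ht1m, hall1⟩ := h.swap.other (y := b0) (z := v1) (by rw [hg0]; simp)
    obtain ⟨t2, ht2, ht2m, hall2⟩ := h.swap.other (y := b0) (z := v2) (by rw [hg0]; simp)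
    have r1 := hall1 b1 (by rw [hg1]; simp)
    have r2 := hall2 b2 (by rw [hg2]; simp)
    have r1' : b1 = t1 := r1.resolve_left (Ne.symm k01)
    have r2' : b2 = t2 := r2.resolve_left (Ne.symm k02)
    rcases hall1 s (by rw [hs]; simp) with e | e
    · exact e
    · rcases hall2 s (by rw [hs]; simp) with e' | e'
      · exact e'
      · exfalso
        apply k12
        rw [r1', r2', ← e, ← e']
  have n0 : (b0, v3) ∈ G := (hmem' _ _).mpr (Or.inl ⟨rfl, rfl⟩)
  have n1 : (b1, c) ∈ G := (hmem' _ _).mpr (Or.inr (Or.inl ⟨rfl, rfl⟩))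
  have n2 : (b2, d) ∈ G := (hmem' _ _).mpr (Or.inr (Or.inr ⟨rfl, rfl⟩))
  -- all second coordinates are distinct
  have hs2 : ∀ s s' y, (s, y) ∈ G → (s', y) ∈ G → s = s' := by
    intro s s' y m m'
    rw [hmem] at m m'
    rcases m with ⟨e1, e2⟩ | ⟨e1, e2⟩ | ⟨e1, e2⟩ <;>
      rcases m' with ⟨e3, e4⟩ | ⟨e3, e4⟩ | ⟨e3, e4⟩
    · rw [e1, e3]
    · exact absurd (e2.symm.trans e4) h01
    · exact absurd (e2.symm.trans e4) h02
    · exact absurd (e4.symm.trans e2) h01
    · rw [e1, e3]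
    · exact absurd (e2.symm.trans e4) h12
    · exact absurd (e4.symm.trans e2) h02
    · exact absurd (e4.symm.trans e2) h12
    · rw [e1, e3]
  have hc' : c = v2 := by
    rcases hc with rfl | rfl
    · exact absurd (hs2 _ _ _ n0 n1) k01
    · rfl
  have hd' : d = v1 := by
    rcases hd with rfl | rfl
    · exact absurd (hs2 _ _ _ n0 n2) k02
    · rfl
  subst hc' hd'
  -- the three cases
  have j1 := (hmem _ _).mp n1
  have j2 := (hmem _ _).mp n2
  rcases (hmem _ _).mp n0 with ⟨e1, e2⟩ | ⟨e1, e2⟩ | ⟨e1, e2⟩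
  · -- v3 = y0, b0 = u
    have hpair : ({d, c} : Finset β) = {y1, y2} := by
      rcases j1 with ⟨-, i1⟩ | ⟨-, i1⟩ | ⟨-, i1⟩ <;> rcases j2 with ⟨-, i2⟩ | ⟨-, i2⟩ | ⟨-, i2⟩
      · exact absurd (i1.trans e2.symm) hv23
      · exact absurd (i1.trans e2.symm) hv23
      · exact absurd (i1.trans e2.symm) hv23
      · exact absurd (i2.trans e2.symm) hv13
      · exact absurd (i2.trans i1.symm) hv12
      · rw [i1, i2, pair_comm]
      · exact absurd (i2.trans e2.symm) hv13
      · rw [i1, i2]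
      · exact absurd (i2.trans i1.symm) hv12
    obtain ⟨s, hsu, hs⟩ := h.H1 y1 y2 h12 u (by rw [hf1]; simp) (by rw [hf2]; simp)
    exact hsu ((huniq s (hs.trans hpair.symm)).trans e1)
  · -- v3 = y1, b0 = w
    have hpair : ({d, c} : Finset β) = {y0, y2} := by
      rcases j1 with ⟨-, i1⟩ | ⟨-, i1⟩ | ⟨-, i1⟩ <;> rcases j2 with ⟨-, i2⟩ | ⟨-, i2⟩ | ⟨-, i2⟩
      · exact absurd (i2.trans i1.symm) hv12
      · exact absurd (i2.trans e2.symm) hv13
      · rw [i1, i2, pair_comm]
      · exact absurd (i1.trans e2.symm) hv23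
      · exact absurd (i1.trans e2.symm) hv23
      · exact absurd (i1.trans e2.symm) hv23
      · rw [i1, i2]
      · exact absurd (i2.trans e2.symm) hv13
      · exact absurd (i2.trans i1.symm) hv12
    obtain ⟨s, hsu, hs⟩ := h.H1 y0 y2 h02 a (by rw [hf0]; simp) (by rw [hf2]; simp)
    exact hsu ((huniq s (hs.trans hpair.symm)).trans e1)
  · -- v3 = y2, b0 = z
    have hpair : ({d, c} : Finset β) = {y0, y1} := by
      rcases j1 with ⟨-, i1⟩ | ⟨-, i1⟩ | ⟨-, i1⟩ <;> rcases j2 with ⟨-, i2⟩ | ⟨-, i2⟩ | ⟨-, i2⟩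
      · exact absurd (i2.trans i1.symm) hv12
      · rw [i1, i2, pair_comm]
      · exact absurd (i2.trans e2.symm) hv13
      · rw [i1, i2]
      · exact absurd (i2.trans i1.symm) hv12
      · exact absurd (i2.trans e2.symm) hv13
      · exact absurd (i1.trans e2.symm) hv23
      · exact absurd (i1.trans e2.symm) hv23
      · exact absurd (i1.trans e2.symm) hv23
    obtain ⟨s, hsu, hs⟩ := h.H1 y0 y1 h01 b (by rw [hf0]; simp) (by rw [hf1]; simp)
    exact hsu ((huniq s (hs.trans hpair.symm)).trans e1)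

end four

end Run7.h678.KM
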