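import Pool.Agent.Run7.h678.KM.Loc

set_option autoImplicit false

namespace Run7.h678.KM

open Finset

section loc2
variable {V : Type*} [DecidableEq V]

theorem g_swap (T : Finset (Finset V)) (x y z : V) : g T x y z = g T y x z := by
  unfold g; rw [Finset.insert_comm]

theorem g_swap' (T : Finset (Finset V)) (x y z : V) : g T x y z = g T x z y := by
  unfold g; rw [Finset.pair_comm]

/-- the defect of `B` at `x` -/
def dd (T : Finset (Finset V)) (B : Finset V) (x : V) : ℕ :=
  if x ∉ B ∧ ¬ Good T B x then 1 else 0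

theorem dd_zero {T : Finset (Finset V)} {B : Finset V} {x : V} (hx : x ∉ B)
    (h : dd T B x = 0) : Good T B x := by
  by_contra hg
  rw [dd, if_pos ⟨hx, hg⟩] at h
  omega

theorem loc1d {T : Finset (Finset V)} (h3 : ∀ t ∈ T, t.card = 3) {B : Finset V} {x : V}
    (hx : x ∉ B) : 2 ≤ ∑ a ∈ B, ∑ a' ∈ B, g T a a' x + 2 * dd T B x := by
  by_cases hg : Good T B x
  · obtain ⟨h2, hT, -, hsub⟩ := miss_spec h3 hx hg
    obtain ⟨a, a', haa, he⟩ := card_eq_two.mp h2
    have ha : a ∈ B := hsub (by rw [he]; simp)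
    have ha' : a' ∈ B := hsub (by rw [he]; simp)
    have e1 : ({a, a', x} : Finset V) ∈ T := by
      rw [he] at hT
      have : ({a, a', x} : Finset V) = insert x {a, a'} := by
        ext w; simp only [mem_insert, mem_singleton]; tauto
      rw [this]; exact hT
    have g1 : g T a a' x = 1 := if_pos e1
    have g2 : g T a' a x = 1 := by rw [g_swap]; exact g1
    have s1 : g T a a' x ≤ ∑ c ∈ B, g T a c x :=
      single_le_sum (f := fun c => g T a c x) (fun _ _ => Nat.zero_le _) ha'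
    have s2 : g T a' a x ≤ ∑ c ∈ B, g T a' c x :=
      single_le_sum (f := fun c => g T a' c x) (fun _ _ => Nat.zero_le _) ha
    have s3 : ∑ b ∈ ({a, a'} : Finset V), ∑ c ∈ B, g T b c x ≤ ∑ b ∈ B, ∑ c ∈ B, g T b c x := by
      refine sum_le_sum_of_subset ?_
      intro t ht
      simp only [mem_insert, mem_singleton] at ht
      rcases ht with rfl | rfl <;> assumption
    rw [sum_pair haa] at s3
    omega
  · have : dd T B x = 1 := if_pos ⟨hx, hg⟩
    omega

theorem loc2d {T : Finset (Finset V)} {q : ℕ} (hT : CovM (q + 1) T) {B C : Finset V}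
    (hB : B.card = q) (hC : C.card = q) (hBC : Disjoint B C) {z : V} (hzB : z ∉ B)
    (hzC : z ∉ C) :
    4 ≤ ∑ a ∈ B, ∑ c ∈ C, g T a c z +
      4 * (∑ x ∈ C, dd T B x + ∑ a ∈ B, dd T C a + dd T B z + dd T C z) := by
  by_cases h0 : ∑ x ∈ C, dd T B x + ∑ a ∈ B, dd T C a + dd T B z + dd T C z = 0
  · have e1 : ∑ x ∈ C, dd T B x = 0 := by omega
    have e2 : ∑ a ∈ B, dd T C a = 0 := by omega
    have e3 : dd T B z = 0 := by omega
    have e4 : dd T C z = 0 := by omega
    rw [sum_eq_zero_iff] at e1 e2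
    have := loc hT hB hC hBC hzB hzC
      (fun y hy => dd_zero (fun h => disjoint_left.mp hBC h hy) (e1 y hy))
      (fun y hy => dd_zero (fun h => disjoint_left.mp hBC hy h) (e2 y hy))
      (dd_zero hzB e3) (dd_zero hzC e4)
    omega
  · omega

end loc2

section glob
variable {V : Type*} [Fintype V] [DecidableEq V]

theorem count_le_six {t : Finset V} (ht : t.card = 3) :
    (univ.filter (fun p : V × V × V => ({p.1, p.2.1, p.2.2} : Finset V) = t)).card ≤ 6 := by
  obtain ⟨a, b, c, hab, hac, hbc, rfl⟩ := card_eq_three.mp ht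
  refine (card_le_card (t := {(a, b, c), (a, c, b), (b, a, c), (b, c, a), (c, a, b), (c, b, a)})
    ?_).trans card_le_six
  rintro ⟨x, y, z⟩ hp
  simp only [mem_filter, mem_univ, true_and] at hp
  have hx : x ∈ ({a, b, c} : Finset V) := by rw [← hp]; simp
  have hy : y ∈ ({a, b, c} : Finset V) := by rw [← hp]; simp
  have hz : z ∈ ({a, b, c} : Finset V) := by rw [← hp]; simp
  have h3 : ({x, y, z} : Finset V).card = 3 := by rw [hp, ht]
  have hxy : x ≠ y := by
    rintro rfl
    have : ({x, x, z} : Finset V).card ≤ 2 := by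
      rw [insert_eq_of_mem (by simp)]; exact card_le_two
    omega
  have hyz : y ≠ z := by
    rintro rfl
    have : ({x, y, y} : Finset V).card ≤ 2 := by
      rw [pair_eq_singleton]; exact card_le_two
    omega
  have hxz : x ≠ z := by
    rintro rfl
    have : ({x, y, x} : Finset V).card ≤ 2 := by
      rw [pair_comm, insert_eq_of_mem (by simp)]; exact card_le_two
    omega
  simp only [mem_insert, mem_singleton] at hx hy hz
  simp only [mem_insert, mem_singleton, Prod.mk.injEq]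
  rcases hx with rfl | rfl | rfl <;> rcases hy with rfl | rfl | rfl <;>
    rcases hz with rfl | rfl | rfl <;> simp_all

theorem sum_g_le {T : Finset (Finset V)} (hT : ∀ t ∈ T, t.card = 3) :
    ∑ x : V, ∑ y : V, ∑ z : V, g T x y z ≤ 6 * T.card := by
  have h1 : ∑ x : V, ∑ y : V, ∑ z : V, g T x y z =
      (univ.filter (fun p : V × V × V => ({p.1, p.2.1, p.2.2} : Finset V) ∈ T)).card := by
    rw [card_filter, ← univ_product_univ, sum_product]
    refine sum_congr rfl fun x _ => ?_
    rw [← univ_product_univ, sum_product]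
    rfl
  rw [h1, card_eq_sum_card_fiberwise (f := fun p : V × V × V => ({p.1, p.2.1, p.2.2} : Finset V))
    (t := T) (by intro p hp; simpa using hp)]
  calc ∑ t ∈ T, _ ≤ ∑ t ∈ T, 6 := by
        refine sum_le_sum fun t ht => ?_
        refine le_trans (card_le_card ?_) (count_le_six (hT t ht))
        intro p hp
        simp only [mem_filter, mem_univ, true_and] at hp ⊢
        exact hp.2
    _ = 6 * T.card := by rw [sum_const, smul_eq_mul, mul_comm]

/-- the sum of the indicator over a box -/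
def bx (T : Finset (Finset V)) (X Y Z : Finset V) : ℕ := ∑ x ∈ X, ∑ y ∈ Y, ∑ z ∈ Z, g T x y z

omit [Fintype V] in
theorem bx_swap (T : Finset (Finset V)) (X Y Z : Finset V) : bx T X Y Z = bx T Y X Z := by
  unfold bx
  rw [sum_comm]
  refine sum_congr rfl fun y _ => sum_congr rfl fun x _ => sum_congr rfl fun z _ => ?_
  exact g_swap T x y z

omit [Fintype V] in
theorem bx_swap' (T : Finset (Finset V)) (X Y Z : Finset V) : bx T X Y Z = bx T X Z Y := by
  unfold bx
  refine sum_congr rfl fun x _ => ?_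
  rw [sum_comm]
  refine sum_congr rfl fun z _ => sum_congr rfl fun y _ => ?_
  exact g_swap' T x y z

theorem split {T : Finset (Finset V)} (U : Finset V) :
    bx T U U U + 3 * bx T U U Uᶜ + 3 * bx T U Uᶜ Uᶜ ≤ ∑ x : V, ∑ y : V, ∑ z : V, g T x y z := by
  have h1 : ∀ F : V → ℕ, ∑ x : V, F x = ∑ x ∈ U, F x + ∑ x ∈ Uᶜ, F x := fun F =>
    (sum_add_sum_compl U F).symm
  have h2 : ∑ x : V, ∑ y : V, ∑ z : V, g T x y z =
      bx T U U U + bx T U U Uᶜ + (bx T U Uᶜ U + bx T U Uᶜ Uᶜ) +
      (bx T Uᶜ U U + bx T Uᶜ U Uᶜ + (bx T Uᶜ Uᶜ U + bx T Uᶜ Uᶜ Uᶜ)) := by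
    unfold bx
    simp only [h1, sum_add_distrib]
  have e1 : bx T U Uᶜ U = bx T U U Uᶜ := bx_swap' T U Uᶜ U
  have e2 : bx T Uᶜ U U = bx T U U Uᶜ := by rw [bx_swap, e1]
  have e3 : bx T Uᶜ U Uᶜ = bx T U Uᶜ Uᶜ := bx_swap T Uᶜ U Uᶜ
  have e4 : bx T Uᶜ Uᶜ U = bx T U Uᶜ Uᶜ := by rw [bx_swap', e3]
  rw [h2, e1, e2, e3, e4]
  omega

variable {r : ℕ} {B : Fin r → Finset V}

omit [Fintype V] in
theorem sum_U (hdis : ∀ i j, i ≠ j → Disjoint (B i) (B j)) (F : V → ℕ) :
    ∑ x ∈ univ.biUnion B, F x = ∑ i, ∑ x ∈ B i, F x := by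
  rw [sum_biUnion (fun i _ j _ h => hdis i j h)]

/-- defects of the block `i` in the block `j` -/
def D (T : Finset (Finset V)) (B : Fin r → Finset V) (i j : Fin r) : ℕ := ∑ x ∈ B j, dd T (B i) x

omit [Fintype V] in
theorem bx_first (T : Finset (Finset V)) (hdis : ∀ i j, i ≠ j → Disjoint (B i) (B j))
    (Y Z : Finset V) :
    bx T (univ.biUnion B) Y Z = ∑ i, bx T (B i) Y Z := by
  unfold bx
  rw [sum_U hdis]

omit [Fintype V] in
theorem bx_second (T : Finset (Finset V)) (hdis : ∀ i j, i ≠ j → Disjoint (B i) (B j))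
    (X Z : Finset V) :
    bx T X (univ.biUnion B) Z = ∑ j, bx T X (B j) Z := by
  rw [bx_swap, bx_first T hdis]
  exact sum_congr rfl fun j _ => bx_swap _ _ _ _

omit [Fintype V] in
theorem bx_third (T : Finset (Finset V)) (hdis : ∀ i j, i ≠ j → Disjoint (B i) (B j))
    (X Y : Finset V) :
    bx T X Y (univ.biUnion B) = ∑ k, bx T X Y (B k) := by
  rw [bx_swap', bx_second T hdis]
  exact sum_congr rfl fun j _ => bx_swap' _ _ _ _

omit [Fintype V] in
theorem bx_z (T : Finset (Finset V)) (X Y Z : Finset V) :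
    bx T X Y Z = ∑ z ∈ Z, ∑ x ∈ X, ∑ y ∈ Y, g T x y z := by
  have h : ∀ x ∈ X, ∑ y ∈ Y, ∑ z ∈ Z, g T x y z = ∑ z ∈ Z, ∑ y ∈ Y, g T x y z :=
    fun x _ => sum_comm
  unfold bx
  rw [sum_congr rfl h, sum_comm]

theorem total_three (r : ℕ) (q : ℤ) (D : Fin r → Fin r → ℤ) :
    ∑ i : Fin r, ∑ j : Fin r, ∑ k : Fin r, (4 * q -
      2 * q * ((if i = j then 1 else 0) + (if j = k then 1 else 0) + (if i = k then 1 else 0)) +
      2 * q * ((if i = j then 1 else 0) * (if j = k then 1 else 0)) -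
      4 * q * (D i j + D j i + D i k + D k i + D j k + D k j)) =
    4 * q * r ^ 3 - 6 * q * r ^ 2 + 2 * q * r - 24 * q * r * ∑ i, ∑ j, D i j := by
  have e1 : ∀ i j k : Fin r, ((if i = j then (1 : ℤ) else 0) * (if j = k then 1 else 0)) =
      if i = j then (if i = k then 1 else 0) else 0 := by
    intro i j k; split_ifs <;> simp_all
  have e2 : ∑ i : Fin r, ∑ j : Fin r, ∑ k : Fin r,
      (if i = j then (if i = k then (1 : ℤ) else 0) else 0) = r := by
    have : ∀ i j : Fin r, ∑ k : Fin r, (if i = j then (if i = k then (1 : ℤ) else 0) else 0) =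
        if i = j then 1 else 0 := by
      intro i j; split_ifs <;> simp
    simp only [this, sum_ite_eq, mem_univ, if_true, sum_const, card_univ, Fintype.card_fin,
      nsmul_eq_mul, mul_one]
  have e3 : ∑ x : Fin r, ∑ y : Fin r, D y x = ∑ i, ∑ j, D i j := sum_comm
  simp only [e1, sum_add_distrib, sum_sub_distrib, ← mul_sum, e2, sum_ite_eq, mem_univ, if_true,
    sum_const, card_univ, Fintype.card_fin, nsmul_eq_mul, e3]
  ring

theorem total_two (r : ℕ) (R : Finset V) (D : Fin r → Fin r → ℤ) (d : Fin r → V → ℤ) :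
    ∑ i : Fin r, ∑ j : Fin r, ∑ z ∈ R, ((4 : ℤ) - 2 * (if i = j then 1 else 0) -
      4 * (D i j + D j i + d i z + d j z)) =
    R.card * (4 * r ^ 2 - 2 * r) - 8 * R.card * ∑ i, ∑ j, D i j -
      8 * r * ∑ i, ∑ z ∈ R, d i z := by
  have e3 : ∑ x : Fin r, ∑ y : Fin r, D y x = ∑ i, ∑ j, D i j := sum_comm
  simp only [sum_add_distrib, sum_sub_distrib, ← mul_sum, sum_ite_eq, mem_univ, if_true,
    sum_const, card_univ, Fintype.card_fin, nsmul_eq_mul, e3]
  ring

variable {q : ℕ}

omit [Fintype V] in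
/-- a block, the same block, another block -/
theorem blk_iik {T : Finset (Finset V)} (hT : CovM (q + 1) T) (hB : ∀ i, (B i).card = q)
    (hdis : ∀ i j, i ≠ j → Disjoint (B i) (B j)) {i k : Fin r} (hik : i ≠ k) :
    2 * q ≤ bx T (B i) (B i) (B k) + 2 * D T B i k := by
  rw [bx_z]
  unfold D
  rw [mul_sum, ← sum_add_distrib]
  calc 2 * q = ∑ z ∈ B k, 2 := by rw [sum_const, hB, smul_eq_mul, mul_comm]
    _ ≤ _ := by
      refine sum_le_sum fun z hz => ?_
      exact loc1d hT.1 (fun h => (disjoint_left.mp (hdis i k hik)) h hz)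

omit [Fintype V] in
theorem blk_iiz {T : Finset (Finset V)} (hT : CovM (q + 1) T)
    {i : Fin r} {z : V} (hz : z ∉ B i) :
    2 ≤ bx T (B i) (B i) {z} + 2 * dd T (B i) z := by
  rw [bx_z, sum_singleton]
  exact loc1d hT.1 hz

omit [Fintype V] in
theorem blk_ijz {T : Finset (Finset V)} (hT : CovM (q + 1) T) (hB : ∀ i, (B i).card = q)
    (hdis : ∀ i j, i ≠ j → Disjoint (B i) (B j)) {i j : Fin r} (hij : i ≠ j) {z : V}
    (hzi : z ∉ B i) (hzj : z ∉ B j) :
    4 ≤ bx T (B i) (B j) {z} + 4 * (D T B i j + D T B j i + dd T (B i) z + dd T (B j) z) := by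
  rw [bx_z, sum_singleton]
  exact loc2d hT (hB i) (hB j) (hdis i j hij) hzi hzj

omit [Fintype V] in
theorem blk_ijk {T : Finset (Finset V)} (hT : CovM (q + 1) T) (hB : ∀ i, (B i).card = q)
    (hdis : ∀ i j, i ≠ j → Disjoint (B i) (B j)) {i j k : Fin r} (hij : i ≠ j) (hik : i ≠ k)
    (hjk : j ≠ k) :
    4 * q ≤ bx T (B i) (B j) (B k) + (4 * (q * D T B i j) + 4 * (q * D T B j i) +
      4 * D T B i k + 4 * D T B j k) := by
  have h : ∑ z ∈ B k, (4 : ℕ) ≤ ∑ z ∈ B k, (bx T (B i) (B j) {z} +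
      4 * (D T B i j + D T B j i + dd T (B i) z + dd T (B j) z)) :=
    sum_le_sum fun z hz => blk_ijz hT hB hdis hij
      (fun h => (disjoint_left.mp (hdis i k hik)) h hz)
      (fun h => (disjoint_left.mp (hdis j k hjk)) h hz)
  have h1 : ∑ z ∈ B k, bx T (B i) (B j) {z} = bx T (B i) (B j) (B k) := by
    rw [bx_z T (B i) (B j) (B k)]
    refine sum_congr rfl fun z _ => ?_
    rw [bx_z, sum_singleton]
  have h2 : ∑ z ∈ B k, (D T B i j + D T B j i + dd T (B i) z + dd T (B j) z) =
      q * D T B i j + q * D T B j i + D T B i k + D T B j k := by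
    simp only [sum_add_distrib, sum_const, hB, smul_eq_mul]
    rfl
  rw [sum_add_distrib, ← mul_sum, h1, h2, sum_const, hB, smul_eq_mul] at h
  omega

/-- the main inequality -/
theorem main {T : Finset (Finset V)} (hq : 1 ≤ q) (hT : CovM (q + 1) T)
    (hB : ∀ i, (B i).card = q)
    (hdis : ∀ i j, i ≠ j → Disjoint (B i) (B j)) (s : ℕ) (hs : Fintype.card V = q * r + s) :
    (4 * q * r ^ 3 + 12 * r ^ 2 * s + 2 * q * r : ℤ) ≤
      6 * T.card + 24 * (q * r + s) * ∑ i, ∑ x : V, dd T (B i) x + 6 * q * r ^ 2 +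
        6 * r * s := by
  set U : Finset V := univ.biUnion B with hU
  have hUc : U.card = q * r := by
    rw [hU, card_biUnion (fun i _ j _ h => hdis i j h)]
    simp only [hB, sum_const, card_univ, Fintype.card_fin, smul_eq_mul]
    ring
  have hRc : Uᶜ.card = s := by rw [card_compl, hUc, hs]; omega
  have hnot : ∀ (i : Fin r) {z : V}, z ∈ Uᶜ → z ∉ B i := by
    intro i z hz h
    rw [mem_compl] at hz
    exact hz (mem_biUnion.mpr ⟨i, mem_univ _, h⟩)
  have h0 := split (T := T) U
  have h1 := sum_g_le hT.1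
  -- the two parts
  have hA : bx T U U U = ∑ i, ∑ j, ∑ k, bx T (B i) (B j) (B k) := by
    rw [hU, bx_first T hdis]
    refine sum_congr rfl fun i _ => ?_
    rw [bx_second T hdis]
    refine sum_congr rfl fun j _ => ?_
    rw [bx_third T hdis]
  have hC : bx T U U Uᶜ = ∑ i, ∑ j, ∑ z ∈ Uᶜ, bx T (B i) (B j) {z} := by
    rw [hU, bx_first T hdis]
    refine sum_congr rfl fun i _ => ?_
    rw [bx_second T hdis]
    refine sum_congr rfl fun j _ => ?_
    rw [bx_z]
    refine sum_congr rfl fun z _ => ?_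
    rw [bx_z, sum_singleton]
  have hq1 : (1 : ℤ) ≤ q := by exact_mod_cast hq
  have hA' : (4 * q * r ^ 3 - 6 * q * r ^ 2 + 2 * q * r -
      24 * q * r * ∑ i, ∑ j, (D T B i j : ℤ) : ℤ) ≤ (bx T U U U : ℕ) := by
    rw [← total_three, hA]
    push_cast
    refine sum_le_sum fun i _ => sum_le_sum fun j _ => sum_le_sum fun k _ => ?_
    have hD : ∀ a b, (0 : ℤ) ≤ D T B a b := fun a b => by positivity
    have hD' : ∀ a b, (D T B a b : ℤ) ≤ q * D T B a b := fun a b => by
      nlinarith [hD a b]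
    have n1 := hD i j
    have n2 := hD j i
    have n3 := hD i k
    have n4 := hD k i
    have n5 := hD j k
    have n6 := hD k j
    have m1 := hD' i j
    have m2 := hD' j i
    have m3 := hD' i k
    have m4 := hD' k i
    have m5 := hD' j k
    have m6 := hD' k j
    have nb : (0 : ℤ) ≤ bx T (B i) (B j) (B k) := by positivity
    by_cases hij : i = j
    · by_cases hjk : j = k
      · subst hij; subst hjk
        simp only [if_true]
        linarith
      · subst hij
        have := blk_iik hT hB hdis hjk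
        zify at this
        simp only [if_true, if_neg hjk]
        linarith
    · by_cases hjk : j = k
      · subst hjk
        have := blk_iik hT hB hdis (Ne.symm hij)
        rw [bx_swap', bx_swap] at this
        zify at this
        simp only [if_true, if_neg hij]
        linarith
      · by_cases hik : i = k
        · subst hik
          have := blk_iik hT hB hdis hij
          rw [bx_swap'] at this
          zify at this
          simp only [if_true, if_neg hij, if_neg hjk]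
          linarith
        · have := blk_ijk hT hB hdis hij hik hjk
          zify at this
          simp only [if_neg hij, if_neg hjk, if_neg hik]
          linarith
  have hC' : ((s : ℤ) * (4 * r ^ 2 - 2 * r) - 8 * s * ∑ i, ∑ j, (D T B i j : ℤ) -
      8 * r * ∑ i, ∑ z ∈ Uᶜ, (dd T (B i) z : ℤ)) ≤ (bx T U U Uᶜ : ℕ) := by
    have e := total_two r Uᶜ (fun i j => (D T B i j : ℤ)) (fun i z => (dd T (B i) z : ℤ))
    rw [hRc] at e
    rw [← e, hC]
    push_cast
    refine sum_le_sum fun i _ => sum_le_sum fun j _ => sum_le_sum fun z hz => ?_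
    have hD : ∀ a b, (0 : ℤ) ≤ D T B a b := fun a b => by positivity
    have n1 := hD i j
    have n2 := hD j i
    have n3 : (0 : ℤ) ≤ dd T (B i) z := by positivity
    have n4 : (0 : ℤ) ≤ dd T (B j) z := by positivity
    by_cases hij : i = j
    · subst hij
      have := blk_iiz (B := B) hT (hnot i hz)
      zify at this
      simp only [if_true]
      linarith
    · have := blk_ijz hT hB hdis hij (hnot i hz) (hnot j hz)
      zify at this
      simp only [if_neg hij]
      linarith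
  have hdd : ∑ i, ∑ x : V, (dd T (B i) x : ℤ) =
      ∑ i, ∑ j, (D T B i j : ℤ) + ∑ i, ∑ z ∈ Uᶜ, (dd T (B i) z : ℤ) := by
    rw [← sum_add_distrib]
    refine sum_congr rfl fun i _ => ?_
    rw [← sum_add_sum_compl U]
    congr 1
    rw [hU, sum_biUnion (fun i _ j _ h => hdis i j h)]
    refine sum_congr rfl fun j _ => ?_
    unfold D
    push_cast
    rfl
  have g1 : (0 : ℤ) ≤ ∑ i, ∑ j, (D T B i j : ℤ) := by positivity
  have g2 : (0 : ℤ) ≤ ∑ i, ∑ z ∈ Uᶜ, (dd T (B i) z : ℤ) := by positivity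
  zify at h0 h1
  push_cast
  rw [hdd]
  have k1 : (0 : ℤ) ≤ (s : ℤ) * ∑ i, ∑ j, (D T B i j : ℤ) := by positivity
  have k2 : (0 : ℤ) ≤ (s : ℤ) * ∑ i, ∑ z ∈ Uᶜ, (dd T (B i) z : ℤ) := by positivity
  have k3 : (0 : ℤ) ≤ (r : ℤ) * ∑ i, ∑ z ∈ Uᶜ, (dd T (B i) z : ℤ) := by positivity
  have k4 : (0 : ℤ) ≤ (bx T U Uᶜ Uᶜ : ℕ) := by positivity
  have k5 : (r : ℤ) * ∑ i, ∑ z ∈ Uᶜ, (dd T (B i) z : ℤ) ≤
      (q : ℤ) * ((r : ℤ) * ∑ i, ∑ z ∈ Uᶜ, (dd T (B i) z : ℤ)) := by nlinarith
  nlinarith [h0, h1, hA', hC', k1, k2, k3, k4, k5]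

end glob

end Run7.h678.KM
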