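import Pool.Agent.Run7.h678.KM.Four

set_option autoImplicit false

namespace Run7.h678.KM

open Finset

section loc
variable {V : Type*} [DecidableEq V]

/-- `T` is a family of triples meeting (being contained in) every `m`-set -/
def CovM (m : ℕ) (T : Finset (Finset V)) : Prop :=
  (∀ t ∈ T, t.card = 3) ∧ ∀ S : Finset V, S.card = m → ∃ t ∈ T, t ⊆ S

/-- `B` contains no member of `T` and `B` together with `x` contains exactly one -/
def Good (T : Finset (Finset V)) (B : Finset V) (x : V) : Prop :=
  (∀ t ∈ T, ¬ t ⊆ B) ∧ (T.filter (fun t => t ⊆ insert x B)).card = 1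

instance (T : Finset (Finset V)) (B : Finset V) (x : V) : Decidable (Good T B x) := by
  unfold Good; infer_instance

/-- the missing pair of `y` at `B` -/
def miss (T : Finset (Finset V)) (B : Finset V) (y : V) : Finset V :=
  B.filter (fun b => ∃ t ∈ T, t ⊆ insert y B ∧ b ∈ t)

theorem miss_spec {T : Finset (Finset V)} (h3 : ∀ t ∈ T, t.card = 3) {B : Finset V} {y : V}
    (hy : y ∉ B) (hg : Good T B y) :
    (miss T B y).card = 2 ∧ insert y (miss T B y) ∈ T ∧
      (∀ t ∈ T, t ⊆ insert y B → t = insert y (miss T B y)) ∧ miss T B y ⊆ B := by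
  obtain ⟨h0, h1⟩ := hg
  obtain ⟨t, ht⟩ := card_eq_one.mp h1
  have hmem : ∀ s, (s ∈ T ∧ s ⊆ insert y B) ↔ s = t := by
    intro s
    have : s ∈ T.filter (fun t => t ⊆ insert y B) ↔ s ∈ ({t} : Finset (Finset V)) := by rw [ht]
    simpa [mem_filter] using this
  obtain ⟨htT, htB⟩ := (hmem t).mpr rfl
  have hyt : y ∈ t := by
    by_contra hn
    exact h0 t htT ((subset_insert_iff_of_notMem hn).mp htB)
  have hms : miss T B y = t.erase y := by
    ext b
    simp only [miss, mem_filter, mem_erase]
    constructor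
    · rintro ⟨hb, s, hs, hsB, hbs⟩
      rw [(hmem s).mp ⟨hs, hsB⟩] at hbs
      exact ⟨by rintro rfl; exact hy hb, hbs⟩
    · rintro ⟨hby, hbt⟩
      refine ⟨?_, t, htT, htB, hbt⟩
      have := htB hbt
      rw [mem_insert] at this
      exact this.resolve_left hby
  have hins : insert y (miss T B y) = t := by rw [hms, insert_erase hyt]
  refine ⟨?_, ?_, ?_, filter_subset _ _⟩
  · rw [hms, card_erase_of_mem hyt, h3 t htT]
  · rw [hins]; exact htT
  · intro s hs hsB
    rw [hins]; exact (hmem s).mp ⟨hs, hsB⟩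

theorem key {T : Finset (Finset V)} {q : ℕ} (hT : CovM (q + 1) T) {B Z W : Finset V}
    (hB : B.card = q) (hZ : Z ⊆ B) (hW : Disjoint W B) (hc : W.card = Z.card + 1)
    (hg : ∀ w ∈ W, Good T B w ∧ ∃ z ∈ Z, z ∈ miss T B w) (hne : W.Nonempty) :
    ∃ w ∈ W, ∃ w' ∈ W, w ≠ w' ∧ ∃ v ∈ (B \ Z) ∪ W, v ≠ w ∧ v ≠ w' ∧
      ({w, w', v} : Finset V) ∈ T := by
  have hcard : ((B \ Z) ∪ W).card = q + 1 := by
    rw [card_union_of_disjoint (by
      rw [disjoint_comm]; exact hW.mono_right sdiff_subset), card_sdiff_of_subset hZ, hB, hc]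
    have := card_le_card hZ
    omega
  obtain ⟨t, ht, hts⟩ := hT.2 _ hcard
  have hwB : ∀ w ∈ W, w ∉ B := fun w hw => disjoint_left.mp hW hw
  have h2 : 1 < (t ∩ W).card := by
    by_contra hcon
    push Not at hcon
    obtain ⟨w0, hw0⟩ := hne
    have hB0 := (hg w0 hw0).1.1
    rcases Nat.lt_or_eq_of_le hcon with h0 | h1
    · have he : t ∩ W = ∅ := by rw [← card_eq_zero]; omega
      refine hB0 t ht fun b hb => ?_
      have := hts hb
      rw [mem_union, mem_sdiff] at this
      rcases this with h | h
      · exact h.1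
      · exfalso
        have : b ∈ t ∩ W := mem_inter.mpr ⟨hb, h⟩
        rw [he] at this
        simp at this
    · obtain ⟨w, hw⟩ := card_eq_one.mp h1
      have hwm : w ∈ t ∩ W := by rw [hw]; simp
      rw [mem_inter] at hwm
      have hsub : t ⊆ insert w B := by
        intro b hb
        have := hts hb
        rw [mem_union, mem_sdiff] at this
        rcases this with h | h
        · exact mem_insert_of_mem h.1
        · have : b ∈ t ∩ W := mem_inter.mpr ⟨hb, h⟩
          rw [hw, mem_singleton] at this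
          rw [this]; exact mem_insert_self _ _
      obtain ⟨hgw, z, hzZ, hzm⟩ := hg w hwm.2
      obtain ⟨-, -, hun, -⟩ := miss_spec hT.1 (hwB w hwm.2) hgw
      have he := hun t ht hsub
      have hzt : z ∈ t := by rw [he]; exact mem_insert_of_mem hzm
      have := hts hzt
      rw [mem_union, mem_sdiff] at this
      rcases this with h | h
      · exact h.2 hzZ
      · exact hwB z h (hZ hzZ)
  obtain ⟨w, hw, w', hw', hww⟩ := one_lt_card.mp h2
  rw [mem_inter] at hw hw'
  have h1 : ((t.erase w).erase w').card = 1 := by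
    rw [card_erase_of_mem (mem_erase.mpr ⟨hww.symm, hw'.1⟩), card_erase_of_mem hw.1, hT.1 t ht]
  obtain ⟨v, hv⟩ := card_eq_one.mp h1
  have hvm : v ∈ (t.erase w).erase w' := by rw [hv]; simp
  simp only [mem_erase] at hvm
  refine ⟨w, hw.2, w', hw'.2, hww, v, hts hvm.2.2, hvm.2.1, hvm.1, ?_⟩
  have he : ({w, w', v} : Finset V) = t := by
    rw [← hv, insert_erase (mem_erase.mpr ⟨hww.symm, hw'.1⟩), insert_erase hw.1]
  rw [he]; exact ht

/-- a member of `T` with two vertices in `C` and one in `B` determines the missing pair -/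
theorem miss_eq {T : Finset (Finset V)} (h3 : ∀ t ∈ T, t.card = 3) {C : Finset V} {y y' b : V}
    (hb : b ∉ C) (hg : Good T C b) (hy : y ∈ C) (hy' : y' ∈ C)
    (ht : ({y, y', b} : Finset V) ∈ T) : miss T C b = {y, y'} := by
  obtain ⟨-, -, hun, hsub⟩ := miss_spec h3 hb hg
  have hs : ({y, y', b} : Finset V) ⊆ insert b C := by
    intro t ht
    simp only [mem_insert, mem_singleton] at ht ⊢
    rcases ht with rfl | rfl | rfl
    · exact Or.inr hy
    · exact Or.inr hy'
    · exact Or.inl rfl
  have he := hun _ ht hs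
  have hbm : b ∉ miss T C b := fun h => hb (hsub h)
  have hbp : b ∉ ({y, y'} : Finset V) := by
    simp only [mem_insert, mem_singleton, not_or]
    exact ⟨by rintro rfl; exact hb hy, by rintro rfl; exact hb hy'⟩
  have h4 : ({y, y', b} : Finset V) = insert b {y, y'} := by
    ext w; simp only [mem_insert, mem_singleton]; tauto
  rw [h4] at he
  have := congrArg (fun s => s.erase b) he
  simpa [erase_insert hbm, erase_insert hbp] using this.symm

/-- the indicator of `T` on three vertices -/
def g (T : Finset (Finset V)) (x y z : V) : ℕ := if ({x, y, z} : Finset V) ∈ T then 1 else 0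

theorem set3_perm (x y z : V) : ({x, y, z} : Finset V) = {y, z, x} := by
  ext w; simp only [mem_insert, mem_singleton]; tauto

theorem set3_swap (x y z : V) : ({x, y, z} : Finset V) = {y, x, z} := by
  rw [Finset.insert_comm]

/-- one half of the data of a local configuration -/
theorem half_conf {T : Finset (Finset V)} {q : ℕ} (hT : CovM (q + 1) T) {B C : Finset V}
    (hB : B.card = q) (hBC : Disjoint B C) {x : V} (hxB : x ∉ B) (hxC : x ∉ C)
    (hgB : ∀ y ∈ C, Good T B y) (hgC : ∀ b ∈ B, Good T C b) (hx : Good T B x)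
    (hx' : Good T C x) :
    (∀ y ∈ C, ∀ y' ∈ C, y ≠ y' → ∀ z, z ∈ miss T B y → z ∈ miss T B y' →
      ∃ b ∈ B, b ≠ z ∧ miss T C b = {y, y'}) ∧
    (∀ y ∈ C, ∀ z, z ∈ miss T B x → z ∈ miss T B y → ∃ b ∈ B, b ≠ z ∧
      ({b, y, x} : Finset V) ∈ T) ∧
    (∀ z u, z ∈ miss T B x → u ∈ B → u ≠ z → ∀ y ∈ C, ∀ y' ∈ C, y ≠ y' → z ∈ miss T B y →
      u ∈ miss T B y' → miss T C x ≠ {y, y'} → (∀ b ∈ B, miss T C b ≠ {y, y'}) →
      ∃ b ∈ B, b ≠ z ∧ b ≠ u ∧ (({b, y, x} : Finset V) ∈ T ∨ ({b, y', x} : Finset V) ∈ T)) := by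
  have hCB : ∀ y ∈ C, y ∉ B := fun y hy hyB => disjoint_left.mp hBC hyB hy
  have hBC' : ∀ y ∈ B, y ∉ C := fun y hy => disjoint_left.mp hBC hy
  have hxy : ∀ y ∈ C, y ≠ x := by rintro y hy rfl; exact hxC hy
  refine ⟨?_, ?_, ?_⟩
  · intro y hy y' hy' hyy z hz hz'
    have hzB : z ∈ B := (miss_spec hT.1 (hCB y hy) (hgB y hy)).2.2.2 hz
    obtain ⟨w, hw, w', hw', hww, v, hv, hvw, hvw', ht⟩ := key (Z := {z}) (W := {y, y'}) hT hB
      (by simpa using hzB) (by
        rw [disjoint_left]; intro a ha
        simp only [mem_insert, mem_singleton] at ha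
        rcases ha with rfl | rfl
        · exact hCB _ hy
        · exact hCB _ hy') (by rw [card_pair hyy, card_singleton]) (by
        intro w hw
        simp only [mem_insert, mem_singleton] at hw
        rcases hw with rfl | rfl
        · exact ⟨hgB _ hy, z, by simp, hz⟩
        · exact ⟨hgB _ hy', z, by simp, hz'⟩) ⟨y, by simp⟩
    have hvB : v ∈ B ∧ v ≠ z := by
      simp only [mem_union, mem_sdiff, mem_singleton, mem_insert] at hv hw hw'
      rcases hv with h | h
      · exact h
      · exfalso
        rcases hw with rfl | rfl <;> rcases hw' with rfl | rfl <;> simp_all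
    refine ⟨v, hvB.1, hvB.2, ?_⟩
    simp only [mem_insert, mem_singleton] at hw hw'
    have ht' : ({y, y', v} : Finset V) ∈ T := by
      rcases hw with rfl | rfl <;> rcases hw' with rfl | rfl
      · exact absurd rfl hww
      · exact ht
      · rw [set3_swap]; exact ht
      · exact absurd rfl hww
    exact miss_eq hT.1 (hBC' v hvB.1) (hgC v hvB.1) hy hy' ht'
  · intro y hy z hz hz'
    have hzB : z ∈ B := (miss_spec hT.1 hxB hx).2.2.2 hz
    obtain ⟨w, hw, w', hw', hww, v, hv, hvw, hvw', ht⟩ := key (Z := {z}) (W := {y, x}) hT hB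
      (by simpa using hzB) (by
        rw [disjoint_left]; intro a ha
        simp only [mem_insert, mem_singleton] at ha
        rcases ha with rfl | rfl
        · exact hCB _ hy
        · exact hxB) (by rw [card_pair (hxy y hy), card_singleton]) (by
        intro w hw
        simp only [mem_insert, mem_singleton] at hw
        rcases hw with rfl | rfl
        · exact ⟨hgB _ hy, z, by simp, hz'⟩
        · exact ⟨hx, z, by simp, hz⟩) ⟨y, by simp⟩
    have hvB : v ∈ B ∧ v ≠ z := by
      simp only [mem_union, mem_sdiff, mem_singleton, mem_insert] at hv hw hw'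
      rcases hv with h | h
      · exact h
      · exfalso
        rcases hw with rfl | rfl <;> rcases hw' with rfl | rfl <;> simp_all
    refine ⟨v, hvB.1, hvB.2, ?_⟩
    simp only [mem_insert, mem_singleton] at hw hw'
    rcases hw with rfl | rfl <;> rcases hw' with rfl | rfl
    · exact absurd rfl hww
    · rw [set3_perm]; exact ht
    · rw [set3_perm, set3_swap]; exact ht
    · exact absurd rfl hww
  · intro z u hz hu huz y hy y' hy' hyy hzy huy hne hnb
    have hzB : z ∈ B := (miss_spec hT.1 hxB hx).2.2.2 hz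
    obtain ⟨w, hw, w', hw', hww, v, hv, hvw, hvw', ht⟩ := key (Z := {z, u}) (W := {y, y', x}) hT hB
      (by
        intro a ha
        simp only [mem_insert, mem_singleton] at ha
        rcases ha with rfl | rfl
        · exact hzB
        · exact hu) (by
        rw [disjoint_left]; intro a ha
        simp only [mem_insert, mem_singleton] at ha
        rcases ha with rfl | rfl | rfl
        · exact hCB _ hy
        · exact hCB _ hy'
        · exact hxB) (by
        rw [card_pair huz.symm, card_insert_of_notMem (by simp [hyy, hxy y hy]),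
          card_pair (hxy y' hy')]) (by
        intro w hw
        simp only [mem_insert, mem_singleton] at hw
        rcases hw with rfl | rfl | rfl
        · exact ⟨hgB _ hy, z, by simp, hzy⟩
        · exact ⟨hgB _ hy', u, by simp, huy⟩
        · exact ⟨hx, z, by simp, hz⟩) ⟨y, by simp⟩
    simp only [mem_union, mem_sdiff, mem_singleton, mem_insert, not_or] at hv hw hw'
    by_cases hall : v = y ∨ v = y' ∨ v = x
    · -- all three outside: the missing pair of x at C
      exfalso
      have ht' : ({y, y', x} : Finset V) ∈ T := by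
        have he : ({w, w', v} : Finset V) = {y, y', x} := by
          have hsub : ({w, w', v} : Finset V) ⊆ {y, y', x} := by
            intro a ha
            simp only [mem_insert, mem_singleton] at ha ⊢
            rcases ha with rfl | rfl | rfl <;> assumption
          refine eq_of_subset_of_card_le hsub ?_
          rw [hT.1 _ ht]
          exact card_le_three
        rw [← he]; exact ht
      exact hne (miss_eq hT.1 hxC hx' hy hy' ht')
    · push Not at hall
      have hvB : v ∈ B ∧ v ≠ z ∧ v ≠ u := by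
        rcases hv with h | h
        · exact h
        · exact absurd h (by tauto)
      by_cases hxw : w = x ∨ w' = x
      · refine ⟨v, hvB.1, hvB.2.1, hvB.2.2, ?_⟩
        rcases hxw with rfl | rfl
        · rcases hw' with rfl | rfl | rfl
          · left; rw [set3_perm, set3_swap]; exact ht
          · right; rw [set3_perm, set3_swap]; exact ht
          · exact absurd rfl hww
        · rcases hw with rfl | rfl | rfl
          · left; rw [set3_perm]; exact ht
          · right; rw [set3_perm]; exact ht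
          · exact absurd rfl hww
      · exfalso
        push Not at hxw
        have ht' : ({y, y', v} : Finset V) ∈ T := by
          rcases hw with rfl | rfl | rfl <;> rcases hw' with rfl | rfl | rfl
          · exact absurd rfl hww
          · exact ht
          · exact absurd rfl hxw.2
          · rw [set3_swap]; exact ht
          · exact absurd rfl hww
          · exact absurd rfl hxw.2
          · exact absurd rfl hxw.1
          · exact absurd rfl hxw.1
          · exact absurd rfl hww
        exact hnb v hvB.1 (miss_eq hT.1 (hBC' v hvB.1) (hgC v hvB.1) hy hy' ht')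

theorem miss_sub (T : Finset (Finset V)) (B : Finset V) (y : V) : miss T B y ⊆ B :=
  filter_subset _ _

/-- the trace of a set on a subtype -/
def tr (B p : Finset V) : Finset {x // x ∈ B} := univ.filter (fun b => (b : V) ∈ p)

theorem mem_tr {B p : Finset V} {b : {x // x ∈ B}} : b ∈ tr B p ↔ (b : V) ∈ p := by
  simp [tr]

theorem card_tr {B p : Finset V} (hp : p ⊆ B) : (tr B p).card = p.card := by
  have : p = (tr B p).map (Function.Embedding.subtype _) := by
    ext b
    simp only [mem_map, mem_tr, Function.Embedding.coe_subtype, Subtype.exists, exists_and_left,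
      exists_prop, exists_eq_right_right]
    exact ⟨fun h => ⟨h, hp h⟩, fun h => h.1⟩
  conv_rhs => rw [this]
  rw [card_map]

theorem tr_eq_pair {B p : Finset V} {y y' : {x // x ∈ B}} (hp : p ⊆ B) :
    tr B p = {y, y'} ↔ p = {(y : V), (y' : V)} := by
  constructor
  · intro h
    ext b
    constructor
    · intro hb
      have : (⟨b, hp hb⟩ : {x // x ∈ B}) ∈ tr B p := mem_tr.mpr hb
      rw [h] at this
      simp only [mem_insert, mem_singleton] at this ⊢
      rcases this with e | e
      · left; rw [← e]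
      · right; rw [← e]
    · intro hb
      simp only [mem_insert, mem_singleton] at hb
      rcases hb with rfl | rfl
      · exact mem_tr.mp (by rw [h]; simp)
      · exact mem_tr.mp (by rw [h]; simp)
  · intro h
    ext b
    rw [mem_tr, h]
    simp only [mem_insert, mem_singleton, Subtype.ext_iff]

theorem loc {T : Finset (Finset V)} {q : ℕ} (hT : CovM (q + 1) T) {B C : Finset V}
    (hB : B.card = q) (hC : C.card = q) (hBC : Disjoint B C) {x : V} (hxB : x ∉ B) (hxC : x ∉ C)
    (hgB : ∀ y ∈ C, Good T B y) (hgC : ∀ b ∈ B, Good T C b) (hx : Good T B x)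
    (hx' : Good T C x) : 4 ≤ ∑ a ∈ B, ∑ c ∈ C, g T a c x := by
  have hCB : ∀ y ∈ C, y ∉ B := fun y hy hyB => disjoint_left.mp hBC hyB hy
  have hBC' : ∀ y ∈ B, y ∉ C := fun y hy => disjoint_left.mp hBC hy
  obtain ⟨a1, a2, a3⟩ := half_conf hT hB hBC hxB hxC hgB hgC hx hx'
  obtain ⟨c1, c2, c3⟩ := half_conf hT hC hBC.symm hxC hxB hgC hgB hx' hx
  have sB : ∀ y ∈ C, miss T B y ⊆ B := fun y hy => miss_sub _ _ _
  have sC : ∀ y ∈ B, miss T C y ⊆ C := fun y hy => miss_sub _ _ _
  set G : Finset ({x // x ∈ B} × {x // x ∈ C}) :=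
    univ.filter (fun w => ({(w.1 : V), (w.2 : V), x} : Finset V) ∈ T) with hG
  have mG : ∀ (b : {x // x ∈ B}) (y : {x // x ∈ C}),
      (b, y) ∈ G ↔ ({(b : V), (y : V), x} : Finset V) ∈ T := by
    intro b y; simp [hG]
  have conf : Conf (fun y : {x // x ∈ C} => tr B (miss T B y))
      (fun b : {x // x ∈ B} => tr C (miss T C b)) (tr B (miss T B x)) (tr C (miss T C x)) G := by
    constructor
    · rw [Fintype.card_coe, Fintype.card_coe, hB, hC]
    · intro y
      rw [card_tr (miss_sub _ _ _)]
      exact (miss_spec hT.1 (hCB y y.2) (hgB y y.2)).1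
    · intro b
      rw [card_tr (miss_sub _ _ _)]
      exact (miss_spec hT.1 (hBC' b b.2) (hgC b b.2)).1
    · rw [card_tr (miss_sub _ _ _)]; exact (miss_spec hT.1 hxB hx).1
    · rw [card_tr (miss_sub _ _ _)]; exact (miss_spec hT.1 hxC hx').1
    · intro y y' hyy z hz hz'
      rw [mem_tr] at hz hz'
      obtain ⟨b, hb, hbz, hm⟩ := a1 y y.2 y' y'.2 (fun e => hyy (Subtype.ext e)) z hz hz'
      exact ⟨⟨b, hb⟩, fun e => hbz (by rw [← e]), (tr_eq_pair (miss_sub _ _ _)).mpr hm⟩
    · intro y y' hyy z hz hz'
      rw [mem_tr] at hz hz'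
      obtain ⟨b, hb, hbz, hm⟩ := c1 y y.2 y' y'.2 (fun e => hyy (Subtype.ext e)) z hz hz'
      exact ⟨⟨b, hb⟩, fun e => hbz (by rw [← e]), (tr_eq_pair (miss_sub _ _ _)).mpr hm⟩
    · intro y z hz hz'
      rw [mem_tr] at hz hz'
      obtain ⟨b, hb, hbz, hm⟩ := a2 y y.2 z hz hz'
      exact ⟨⟨b, hb⟩, fun e => hbz (by rw [← e]), (mG _ _).mpr hm⟩
    · intro b y hy hy'
      rw [mem_tr] at hy hy'
      obtain ⟨v, hv, hvy, hm⟩ := c2 b b.2 y hy hy'
      refine ⟨⟨v, hv⟩, fun e => hvy (by rw [← e]), (mG _ _).mpr ?_⟩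
      rw [set3_swap]; exact hm
    · intro z u hz huz y y' hyy hzy huy hne hnb
      rw [mem_tr] at hz hzy huy
      obtain ⟨b, hb, hbz, hbu, hm⟩ := a3 z u hz u.2 (fun e => huz (Subtype.ext e)) y y.2 y' y'.2
        (fun e => hyy (Subtype.ext e)) hzy huy
        (fun e => hne ((tr_eq_pair (miss_sub _ _ _)).mpr e))
        (fun b hb e => hnb ⟨b, hb⟩ ((tr_eq_pair (miss_sub _ _ _)).mpr e))
      refine ⟨⟨b, hb⟩, fun e => hbz (by rw [← e]), fun e => hbu (by rw [← e]), ?_⟩
      rw [mG, mG]; exact hm
    · intro z u hz huz y y' hyy hzy huy hne hnb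
      rw [mem_tr] at hz hzy huy
      obtain ⟨b, hb, hbz, hbu, hm⟩ := c3 z u hz u.2 (fun e => huz (Subtype.ext e)) y y.2 y' y'.2
        (fun e => hyy (Subtype.ext e)) hzy huy
        (fun e => hne ((tr_eq_pair (miss_sub _ _ _)).mpr e))
        (fun b hb e => hnb ⟨b, hb⟩ ((tr_eq_pair (miss_sub _ _ _)).mpr e))
      refine ⟨⟨b, hb⟩, fun e => hbz (by rw [← e]), fun e => hbu (by rw [← e]), ?_⟩
      rw [mG, mG, set3_swap (y : V), set3_swap (y' : V)]; exact hm
  have h4 := conf.four_le
  have hcount : G.card = ∑ a ∈ B, ∑ c ∈ C, g T a c x := by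
    rw [hG, card_filter, ← univ_product_univ, sum_product]
    rw [← sum_coe_sort B]
    refine sum_congr rfl fun b _ => ?_
    rw [← sum_coe_sort C]
    rfl
  rw [← hcount]; exact h4

end loc

end Run7.h678.KM
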