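import Mathlib

set_option autoImplicit false

namespace Run7.h678.KM

open Finset

section reg
variable {α β : Type*} [Fintype α] [Fintype β] [DecidableEq α] [DecidableEq β]

/-- the number of indices whose set contains `z` -/
def deg (f : β → Finset α) (z : α) : ℕ := (univ.filter (fun y => z ∈ f y)).card

/-- the number of indices whose set is `p` -/
def mul (f : β → Finset α) (p : Finset α) : ℕ := (univ.filter (fun y => f y = p)).card

/-- `(n - 1) (n - 2)` -/
def phi (n : ℤ) : ℤ := (n - 1) * (n - 2)

theorem phi_nonneg (n : ℕ) : 0 ≤ phi n := by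
  unfold phi
  rcases n with _ | _ | n
  · norm_num
  · norm_num
  · push_cast
    have : (0 : ℤ) ≤ n := by positivity
    nlinarith

theorem phi_eq_zero {n : ℕ} (h : phi n = 0) : n = 1 ∨ n = 2 := by
  unfold phi at h
  rcases mul_eq_zero.mp h with h | h <;> omega

theorem phi_sum {ι : Type*} [DecidableEq ι] (s : Finset ι) (m : ι → ℕ) (hm : ∀ i ∈ s, 1 ≤ m i) :
    ∑ i ∈ s, phi (m i) ≤ phi (∑ i ∈ s, m i : ℕ) := by
  induction s using Finset.induction_on with
  | empty => simp [phi]
  | insert a s ha ih =>
    rw [sum_insert ha, sum_insert ha]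
    have ih' := ih (fun i hi => hm i (mem_insert_of_mem hi))
    rcases s.eq_empty_or_nonempty with rfl | hs
    · simp
    · have h1 : 1 ≤ m a := hm a (mem_insert_self _ _)
      have h2 : 1 ≤ ∑ i ∈ s, m i := by
        obtain ⟨i, hi⟩ := hs
        exact (hm i (mem_insert_of_mem hi)).trans (single_le_sum (fun _ _ => Nat.zero_le _) hi)
      have h3 : phi (m a) + phi (∑ i ∈ s, m i : ℕ) ≤ phi (m a + ∑ i ∈ s, m i : ℕ) := by
        unfold phi
        generalize (∑ i ∈ s, m i) = b at h2 ⊢
        push_cast
        zify at h1 h2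
        nlinarith
      linarith

theorem sum_deg {f : β → Finset α} (hf : ∀ y, (f y).card = 2) :
    ∑ z, (deg f z : ℤ) = 2 * Fintype.card β := by
  have h : ∑ z, deg f z = ∑ y, (f y).card := by
    simp only [deg, card_filter]
    rw [sum_comm]
    refine sum_congr rfl fun y _ => ?_
    rw [← card_filter, filter_mem_eq_inter, univ_inter]
  rw [← Nat.cast_sum, h]
  simp [hf, mul_comm]

theorem sum_deg_sq (f : β → Finset α) :
    ∑ z, (deg f z : ℤ) ^ 2 = ∑ y, ∑ y', ((f y ∩ f y').card : ℤ) := by
  have h : ∀ z, (deg f z : ℤ) ^ 2 =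
      ∑ y, ∑ y', (if z ∈ f y then (1 : ℤ) else 0) * (if z ∈ f y' then 1 else 0) := by
    intro z
    rw [← sum_mul_sum, sq]
    simp only [deg, card_filter]
    push_cast
    rfl
  simp only [h]
  rw [sum_comm]
  refine sum_congr rfl fun y _ => ?_
  rw [sum_comm]
  refine sum_congr rfl fun y' _ => ?_
  have : (f y ∩ f y').card = ∑ z, if z ∈ f y ∩ f y' then 1 else 0 := by
    rw [← card_filter, filter_mem_eq_inter, univ_inter]
  rw [this]
  push_cast
  refine sum_congr rfl fun z _ => ?_
  by_cases h1 : z ∈ f y <;> by_cases h2 : z ∈ f y' <;> simp [h1, h2]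

theorem inter_card {p p' : Finset α} (hp : p.card = 2) (hp' : p'.card = 2) :
    ((p ∩ p').card : ℤ) = (if (p ∩ p').Nonempty then 1 else 0) + (if p = p' then 1 else 0) := by
  have hle : (p ∩ p').card ≤ 2 := hp ▸ card_le_card inter_subset_left
  by_cases he : p = p'
  · subst he
    have : (p ∩ p).Nonempty := by rw [inter_self, ← card_pos]; omega
    simp [hp, this] at *
    rw [if_pos this]; norm_num
  · have hlt : (p ∩ p').card ≠ 2 := by
      intro h
      have h1 : p ∩ p' = p := eq_of_subset_of_card_le inter_subset_left (by omega)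
      have h2 : p ∩ p' = p' := eq_of_subset_of_card_le inter_subset_right (by omega)
      exact he (h1.symm.trans h2)
    by_cases hn : (p ∩ p').Nonempty
    · have := card_pos.mpr hn
      simp only [hn, he, if_true, if_false]
      omega
    · rw [not_nonempty_iff_eq_empty] at hn
      simp [hn, he]

theorem sum_eq_mul (f : β → Finset α) :
    ∑ y, ∑ y', (if f y = f y' then (1 : ℤ) else 0) =
      ∑ p ∈ univ.image f, (mul f p : ℤ) ^ 2 := by
  have h : ∀ y, ∑ y', (if f y = f y' then (1 : ℤ) else 0) = (mul f (f y) : ℤ) := by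
    intro y
    simp only [mul, card_filter]
    push_cast
    refine sum_congr rfl fun y' _ => ?_
    simp only [eq_comm]
  simp only [h]
  rw [sum_comp (fun p => (mul f p : ℤ)) f]
  refine sum_congr rfl fun p _ => ?_
  rw [nsmul_eq_mul, sq]
  rfl

theorem sum_mul_image (f : β → Finset α) :
    ∑ p ∈ univ.image f, (mul f p : ℤ) = Fintype.card β := by
  have := sum_comp (s := (univ : Finset β)) (fun _ => (1 : ℤ)) f
  simp only [sum_const, card_univ, nsmul_eq_mul, mul_one] at this
  rw [this]
  rfl

/-- the pair `p` of indices is adjacent -/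
def Adj (f : β → Finset α) (p : Finset β) : Prop :=
  ∃ y y', y ≠ y' ∧ p = {y, y'} ∧ (f y ∩ f y').Nonempty

open Classical in
theorem adj_count {f : β → Finset α} {f' : α → Finset β} (hf : ∀ y, (f y).card = 2)
    (h1 : ∀ y y', y ≠ y' → (f y ∩ f y').Nonempty → ∃ b, f' b = {y, y'}) :
    ∑ y, ∑ y', (if (f y ∩ f y').Nonempty then (1 : ℤ) else 0) ≤
      Fintype.card β + 2 * ((univ.image f').filter (Adj f)).card := by
  set J : Finset (β × β) := univ.filter (fun w => w.1 ≠ w.2 ∧ (f w.1 ∩ f w.2).Nonempty) with hJ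
  have hJc : J.card ≤ 2 * ((univ.image f').filter (Adj f)).card := by
    refine card_le_mul_card_image_of_maps_to (f := fun w : β × β => ({w.1, w.2} : Finset β)) ?_ 2 ?_
    · rintro ⟨y, y'⟩ hw
      simp only [hJ, mem_filter, mem_univ, true_and] at hw
      obtain ⟨b, hb⟩ := h1 y y' hw.1 hw.2
      simp only [mem_filter, mem_image, mem_univ, true_and]
      exact ⟨⟨b, hb⟩, y, y', hw.1, rfl, hw.2⟩
    · intro p hp
      simp only [mem_filter] at hp
      obtain ⟨y, y', hyy, rfl, -⟩ := hp.2
      refine (card_le_card (t := {(y, y'), (y', y)}) ?_).trans card_le_two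
      rintro ⟨a, b⟩ hab
      simp only [hJ, mem_filter, mem_univ, true_and] at hab
      obtain ⟨⟨hne, -⟩, he⟩ := hab
      have ha : a ∈ ({y, y'} : Finset β) := by rw [← he]; simp
      have hb : b ∈ ({y, y'} : Finset β) := by rw [← he]; simp
      simp only [mem_insert, mem_singleton] at ha hb
      simp only [mem_insert, mem_singleton, Prod.mk.injEq]
      rcases ha with rfl | rfl <;> rcases hb with rfl | rfl <;> simp_all
  have hsum : ∑ y, ∑ y', (if (f y ∩ f y').Nonempty then (1 : ℤ) else 0) =
      Fintype.card β + J.card := by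
    have h2 : (J.card : ℤ) = ∑ y, ∑ y', (if y ≠ y' ∧ (f y ∩ f y').Nonempty then (1 : ℤ) else 0) := by
      rw [hJ, card_filter, ← univ_product_univ, sum_product]
      push_cast
      rfl
    have h3 : (Fintype.card β : ℤ) = ∑ y : β, ∑ y' : β, (if y = y' then (1 : ℤ) else 0) := by
      simp
    rw [h2, h3, ← sum_add_distrib]
    refine sum_congr rfl fun y _ => ?_
    rw [← sum_add_distrib]
    refine sum_congr rfl fun y' _ => ?_
    by_cases he : y = y'
    · subst he
      have : (f y ∩ f y).Nonempty := by rw [inter_self, ← card_pos, hf]; norm_num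
      rw [if_pos this, if_pos rfl, if_neg (by tauto)]
      norm_num
    · by_cases hn : (f y ∩ f y').Nonempty
      · rw [if_pos hn, if_neg he, if_pos ⟨he, hn⟩]; norm_num
      · rw [if_neg hn, if_neg he, if_neg (by tauto)]; norm_num
  rw [hsum]
  have : (J.card : ℤ) ≤ 2 * ((univ.image f').filter (Adj f)).card := by exact_mod_cast hJc
  linarith

theorem phi_deg {f : β → Finset α} (hf : ∀ y, (f y).card = 2) :
    2 * ∑ p ∈ univ.image f, phi (mul f p) ≤ ∑ z, phi (deg f z) := by
  have h1 : ∀ z, ∑ p ∈ (univ.image f).filter (fun p => z ∈ p), phi (mul f p) ≤ phi (deg f z) := by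
    intro z
    have h2 : deg f z = ∑ p ∈ (univ.image f).filter (fun p => z ∈ p), mul f p := by
      rw [deg, card_eq_sum_card_fiberwise (f := f) (t := (univ.image f).filter (fun p => z ∈ p))]
      · refine sum_congr rfl fun p hp => ?_
        rw [mul]
        congr 1
        ext y
        simp only [mem_filter, mem_univ, true_and] at hp ⊢
        constructor
        · rintro ⟨-, h⟩; exact h
        · intro h; exact ⟨by rw [h]; exact hp.2, h⟩
      · intro y hy
        simp only [coe_filter, mem_univ, true_and, Set.mem_setOf_eq, mem_image] at hy ⊢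
        exact ⟨⟨y, rfl⟩, hy⟩
    rw [h2]
    refine phi_sum _ _ fun p hp => ?_
    simp only [mem_filter, mem_image, mem_univ, true_and] at hp
    obtain ⟨⟨y, rfl⟩, -⟩ := hp
    exact card_pos.mpr ⟨y, by simp⟩
  calc 2 * ∑ p ∈ univ.image f, phi (mul f p)
      = ∑ p ∈ univ.image f, ∑ z, (if z ∈ p then phi (mul f p) else 0) := by
        rw [mul_sum]
        refine sum_congr rfl fun p hp => ?_
        simp only [mem_image, mem_univ, true_and] at hp
        obtain ⟨y, rfl⟩ := hp
        rw [← sum_filter, filter_mem_eq_inter, univ_inter, sum_const, hf, nsmul_eq_mul]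
        norm_num
    _ = ∑ z, ∑ p ∈ univ.image f, (if z ∈ p then phi (mul f p) else 0) := sum_comm
    _ ≤ ∑ z, phi (deg f z) := by
        refine sum_le_sum fun z _ => ?_
        rw [← sum_filter]
        exact h1 z

open Classical in
theorem half {f : β → Finset α} {f' : α → Finset β} (hc : Fintype.card α = Fintype.card β)
    (hf : ∀ y, (f y).card = 2)
    (h1 : ∀ y y', y ≠ y' → (f y ∩ f y').Nonempty → ∃ b, f' b = {y, y'}) :
    ∑ z, phi (deg f z) + 2 * ((univ.image f').card - ((univ.image f').filter (Adj f)).card : ℤ) ≤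
      ∑ p ∈ univ.image f', phi (mul f' p) + ∑ p ∈ univ.image f, (mul f p : ℤ) ^ 2 -
        ∑ p ∈ univ.image f', (mul f' p : ℤ) ^ 2 := by
  have e1 : ∑ z, phi (deg f z) = ∑ z, (deg f z : ℤ) ^ 2 - 4 * Fintype.card β := by
    have : ∑ z, phi (deg f z) = ∑ z, ((deg f z : ℤ) ^ 2 - 3 * (deg f z : ℤ) + 2) := by
      refine sum_congr rfl fun z _ => ?_
      unfold phi; ring
    rw [this, sum_add_distrib, sum_sub_distrib, ← mul_sum, sum_deg hf]
    simp only [sum_const, card_univ, nsmul_eq_mul, hc]
    ring
  have e2 : ∑ z, (deg f z : ℤ) ^ 2 ≤ Fintype.card β +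
      2 * ((univ.image f').filter (Adj f)).card + ∑ p ∈ univ.image f, (mul f p : ℤ) ^ 2 := by
    rw [sum_deg_sq]
    have : ∑ y, ∑ y', ((f y ∩ f y').card : ℤ) =
        ∑ y, ∑ y', (if (f y ∩ f y').Nonempty then (1 : ℤ) else 0) +
          ∑ y, ∑ y', (if f y = f y' then (1 : ℤ) else 0) := by
      rw [← sum_add_distrib]
      refine sum_congr rfl fun y _ => ?_
      rw [← sum_add_distrib]
      refine sum_congr rfl fun y' _ => ?_
      rw [inter_card (hf y) (hf y')]
    rw [this, sum_eq_mul]
    have := adj_count hf h1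
    linarith
  have e3 : 2 * ((univ.image f').card : ℤ) = 3 * Fintype.card β -
      ∑ p ∈ univ.image f', (mul f' p : ℤ) ^ 2 + ∑ p ∈ univ.image f', phi (mul f' p) := by
    have : ∑ p ∈ univ.image f', phi (mul f' p) =
        ∑ p ∈ univ.image f', ((mul f' p : ℤ) ^ 2 - 3 * (mul f' p : ℤ) + 2) := by
      refine sum_congr rfl fun z _ => ?_
      unfold phi; ring
    rw [this, sum_add_distrib, sum_sub_distrib, ← mul_sum, sum_mul_image]
    simp only [sum_const, nsmul_eq_mul, hc]
    ring
  linarith

/-- **The structure of two saturated sets.** -/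
theorem two_regular {f : β → Finset α} {f' : α → Finset β}
    (hc : Fintype.card α = Fintype.card β) (hf : ∀ y, (f y).card = 2) (hf' : ∀ b, (f' b).card = 2)
    (h1 : ∀ y y', y ≠ y' → (f y ∩ f y').Nonempty → ∃ b, f' b = {y, y'})
    (h2 : ∀ b b', b ≠ b' → (f' b ∩ f' b').Nonempty → ∃ y, f y = {b, b'}) :
    (∀ z, deg f z = 2) ∧ (∀ b, Adj f (f' b)) := by
  classical
  have a1 := half hc hf h1
  have a2 := half hc.symm hf' h2
  have b1 := phi_deg hf
  have b2 := phi_deg hf'
  have c1 : 0 ≤ ∑ p ∈ univ.image f, phi (mul f p) := sum_nonneg fun p _ => phi_nonneg _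
  have c2 : 0 ≤ ∑ p ∈ univ.image f', phi (mul f' p) := sum_nonneg fun p _ => phi_nonneg _
  have d1 : (((univ.image f').filter (Adj f)).card : ℤ) ≤ (univ.image f').card := by
    exact_mod_cast card_le_card (filter_subset _ _)
  have d2 : (((univ.image f).filter (Adj f')).card : ℤ) ≤ (univ.image f).card := by
    exact_mod_cast card_le_card (filter_subset _ _)
  have hz : ∑ z, phi (deg f z) = 0 := by linarith
  have hz' : ∀ z, phi (deg f z) = 0 := fun z =>
    (sum_eq_zero_iff_of_nonneg (fun z _ => phi_nonneg _)).mp hz z (mem_univ _)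
  constructor
  · have hle : ∀ z ∈ (univ : Finset α), deg f z ≤ 2 := fun z _ => by
      rcases phi_eq_zero (hz' z) with h | h <;> omega
    have hs : ∑ z : α, deg f z = ∑ z : α, 2 := by
      have := sum_deg hf
      zify
      rw [this]
      simp only [sum_const, card_univ, nsmul_eq_mul, hc]
      ring
    intro z
    exact (sum_eq_sum_iff_of_le hle).mp hs z (mem_univ _)
  · have he : ((univ.image f').filter (Adj f)).card = (univ.image f').card := by
      have : (((univ.image f').filter (Adj f)).card : ℤ) = (univ.image f').card := by linarith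
      exact_mod_cast this
    have := eq_of_subset_of_card_le (filter_subset (Adj f) (univ.image f')) he.ge
    intro b
    have hb : f' b ∈ (univ.image f').filter (Adj f) := by
      rw [this]; exact mem_image_of_mem _ (mem_univ _)
    exact (mem_filter.mp hb).2

end reg

end Run7.h678.KM
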