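import Pool.Agent.Run7.h678.KM.Glob

set_option autoImplicit false

namespace Run7.h678.KM

open Finset

section con

/-- the pattern of Turan's construction on three classes: all equal, or two in a class and one in
the next class -/
def cyc (i j k : Fin 3) : Bool :=
  (i == j && j == k) || (i == j && k == i + 1) || (i == k && j == i + 1) || (j == k && i == j + 1)

/-- the colours: `e` cyclic triples and `l` pairs -/
abbrev K (e l : ℕ) : Type := (Fin e × Fin 3) ⊕ (Fin l × Fin 2)

/-- the pattern -/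
def pat {e l : ℕ} : K e l → K e l → K e l → Bool
  | Sum.inl x, Sum.inl y, Sum.inl z => x.1 == y.1 && y.1 == z.1 && cyc x.2 y.2 z.2
  | Sum.inr x, Sum.inr y, Sum.inr z => x.1 == y.1 && y.1 == z.1
  | _, _, _ => false

theorem cyc_swap : ∀ i j k : Fin 3, cyc i j k = cyc j i k := by decide
theorem cyc_swap' : ∀ i j k : Fin 3, cyc i j k = cyc i k j := by decide
theorem cyc_rainbow : ∀ i j k : Fin 3, i ≠ j → i ≠ k → j ≠ k → cyc i j k = false := by decide
theorem cyc_pair : ∀ i j k : Fin 3, j ≠ k →
    (cyc i j k = true ↔ (j = i ∧ k = i + 1) ∨ (j = i + 1 ∧ k = i)) := by decide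
theorem cyc_four : ∀ i j k l : Fin 3, cyc i j k = true ∨ cyc i j l = true ∨ cyc i k l = true ∨
    cyc j k l = true := by decide

theorem pat_swap {e l : ℕ} (x y z : K e l) : pat x y z = pat y x z := by
  rcases x with x | x <;> rcases y with y | y <;> rcases z with z | z <;> simp only [pat]
  · rw [cyc_swap x.2 y.2 z.2, Bool.eq_iff_iff]
    simp only [Bool.and_eq_true, beq_iff_eq]
    constructor <;> rintro ⟨⟨h1, h2⟩, h3⟩
    · exact ⟨⟨h1.symm, h1.trans h2⟩, h3⟩
    · exact ⟨⟨h1.symm, h1.trans h2⟩, h3⟩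
  · rw [Bool.eq_iff_iff]
    simp only [Bool.and_eq_true, beq_iff_eq]
    constructor <;> rintro ⟨h1, h2⟩
    · exact ⟨h1.symm, h1.trans h2⟩
    · exact ⟨h1.symm, h1.trans h2⟩

theorem pat_swap' {e l : ℕ} (x y z : K e l) : pat x y z = pat x z y := by
  rcases x with x | x <;> rcases y with y | y <;> rcases z with z | z <;> simp only [pat]
  · rw [cyc_swap' x.2 y.2 z.2, Bool.eq_iff_iff]
    simp only [Bool.and_eq_true, beq_iff_eq]
    constructor <;> rintro ⟨⟨h1, h2⟩, h3⟩
    · exact ⟨⟨h1.trans h2, h2.symm⟩, h3⟩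
    · exact ⟨⟨h1.trans h2, h2.symm⟩, h3⟩
  · rw [Bool.eq_iff_iff]
    simp only [Bool.and_eq_true, beq_iff_eq]
    constructor <;> rintro ⟨h1, h2⟩
    · exact ⟨h1.trans h2, h2.symm⟩
    · exact ⟨h1.trans h2, h2.symm⟩

/-- the vertex set: `r` vertices of each colour -/
abbrev W (e l r : ℕ) : Type := K e l × Fin r

open Classical in
/-- the construction -/
noncomputable def con (e l r : ℕ) : Finset (Finset (W e l r)) :=
  (univ.powersetCard 3).filter (fun t => ∃ x ∈ t, ∃ y ∈ t, ∃ z ∈ t, x ≠ y ∧ x ≠ z ∧ y ≠ z ∧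
    pat x.1 y.1 z.1 = true)

theorem card3 {V : Type*} [DecidableEq V] {x y z : V} (hxy : x ≠ y) (hxz : x ≠ z)
    (hyz : y ≠ z) : ({x, y, z} : Finset V).card = 3 := by
  rw [card_insert_of_notMem (by simp [hxy, hxz]), card_pair hyz]

theorem mem_con {e l r : ℕ} {x y z : W e l r} (hxy : x ≠ y) (hxz : x ≠ z) (hyz : y ≠ z) :
    ({x, y, z} : Finset (W e l r)) ∈ con e l r ↔ pat x.1 y.1 z.1 = true := by
  simp only [con, mem_filter, mem_powersetCard, subset_univ, true_and]
  constructor
  · rintro ⟨-, a, ha, b, hb, c, hc, hab, hac, hbc, h⟩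
    simp only [mem_insert, mem_singleton] at ha hb hc
    rcases ha with rfl | rfl | rfl <;> rcases hb with rfl | rfl | rfl <;>
      rcases hc with rfl | rfl | rfl <;> first
      | exact absurd rfl hab
      | exact absurd rfl hac
      | exact absurd rfl hbc
      | exact h
      | (rw [pat_swap]; exact h)
      | (rw [pat_swap']; exact h)
      | (rw [pat_swap, pat_swap']; exact h)
      | (rw [pat_swap', pat_swap]; exact h)
      | (rw [pat_swap, pat_swap', pat_swap]; exact h)
  · intro h
    exact ⟨card3 hxy hxz hyz, x, by simp, y, by simp, z, by simp, hxy, hxz, hyz, h⟩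

/-- the part of a colour -/
def part {e l : ℕ} : K e l → Fin e ⊕ Fin l
  | Sum.inl x => Sum.inl x.1
  | Sum.inr x => Sum.inr x.1

theorem con_cov (e l r : ℕ) : CovM (3 * e + 2 * l + 1) (con e l r) := by
  refine ⟨fun t ht => ?_, fun S hS => ?_⟩
  · simp only [con, mem_filter, mem_powersetCard] at ht
    exact ht.1.2
  · by_contra hno
    push Not at hno
    have h1 : S.card = ∑ u : Fin e ⊕ Fin l, (S.filter (fun x => part x.1 = u)).card :=
      card_eq_sum_card_fiberwise (f := fun x : W e l r => part x.1) (t := univ)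
        (fun x _ => by simp)
    rw [Fintype.sum_sum_type] at h1
    have h2 : ∀ a : Fin e, (S.filter (fun x => part x.1 = Sum.inl a)).card ≤ 3 := by
      intro a
      by_contra hcon
      push Not at hcon
      obtain ⟨R, hR, hR4⟩ := exists_subset_card_eq (n := 4) (by omega :
        4 ≤ (S.filter (fun x => part x.1 = Sum.inl a)).card)
      obtain ⟨x1, x2, x3, x4, h12, h13, h14, h23, h24, h34, rfl⟩ := card_eq_four.mp hR4
      have hx : ∀ x ∈ ({x1, x2, x3, x4} : Finset (W e l r)), x ∈ S ∧ ∃ i, x.1 = Sum.inl (a, i) := by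
        intro x hx
        have := hR hx
        rw [mem_filter] at this
        refine ⟨this.1, ?_⟩
        obtain ⟨k, j⟩ := x
        rcases k with k | k
        · simp only [part, Sum.inl.injEq] at this
          exact ⟨k.2, by rw [← this.2]⟩
        · simp [part] at this
      obtain ⟨s1, i1, e1⟩ := hx x1 (by simp)
      obtain ⟨s2, i2, e2⟩ := hx x2 (by simp)
      obtain ⟨s3, i3, e3⟩ := hx x3 (by simp)
      obtain ⟨s4, i4, e4⟩ := hx x4 (by simp)
      have hsub : ∀ x y z : W e l r, x ∈ S → y ∈ S → z ∈ S → ({x, y, z} : Finset _) ⊆ S := by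
        intro x y z hx hy hz t ht
        simp only [mem_insert, mem_singleton] at ht
        rcases ht with rfl | rfl | rfl <;> assumption
      rcases cyc_four i1 i2 i3 i4 with h | h | h | h
      · refine hno _ ((mem_con h12 h13 h23).mpr ?_) (hsub _ _ _ s1 s2 s3)
        rw [e1, e2, e3]; simp [pat, h]
      · refine hno _ ((mem_con h12 h14 h24).mpr ?_) (hsub _ _ _ s1 s2 s4)
        rw [e1, e2, e4]; simp [pat, h]
      · refine hno _ ((mem_con h13 h14 h34).mpr ?_) (hsub _ _ _ s1 s3 s4)
        rw [e1, e3, e4]; simp [pat, h]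
      · refine hno _ ((mem_con h23 h24 h34).mpr ?_) (hsub _ _ _ s2 s3 s4)
        rw [e2, e3, e4]; simp [pat, h]
    have h3 : ∀ a : Fin l, (S.filter (fun x => part x.1 = Sum.inr a)).card ≤ 2 := by
      intro a
      by_contra hcon
      push Not at hcon
      obtain ⟨R, hR, hR3⟩ := exists_subset_card_eq (n := 3) (by omega :
        3 ≤ (S.filter (fun x => part x.1 = Sum.inr a)).card)
      obtain ⟨x1, x2, x3, h12, h13, h23, rfl⟩ := card_eq_three.mp hR3
      have hx : ∀ x ∈ ({x1, x2, x3} : Finset (W e l r)), x ∈ S ∧ ∃ i, x.1 = Sum.inr (a, i) := by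
        intro x hx
        have := hR hx
        rw [mem_filter] at this
        refine ⟨this.1, ?_⟩
        obtain ⟨k, j⟩ := x
        rcases k with k | k
        · simp [part] at this
        · simp only [part, Sum.inr.injEq] at this
          exact ⟨k.2, by rw [← this.2]⟩
      obtain ⟨s1, i1, e1⟩ := hx x1 (by simp)
      obtain ⟨s2, i2, e2⟩ := hx x2 (by simp)
      obtain ⟨s3, i3, e3⟩ := hx x3 (by simp)
      refine hno _ ((mem_con h12 h13 h23).mpr ?_) ?_
      · rw [e1, e2, e3]; simp [pat]
      · intro t ht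
        simp only [mem_insert, mem_singleton] at ht
        rcases ht with rfl | rfl | rfl <;> assumption
    have h4 : ∑ a : Fin e, (S.filter (fun x => part x.1 = Sum.inl a)).card ≤ 3 * e := by
      calc _ ≤ ∑ a : Fin e, 3 := sum_le_sum fun a _ => h2 a
        _ = 3 * e := by simp [mul_comm]
    have h5 : ∑ a : Fin l, (S.filter (fun x => part x.1 = Sum.inr a)).card ≤ 2 * l := by
      calc _ ≤ ∑ a : Fin l, 2 := sum_le_sum fun a _ => h3 a
        _ = 2 * l := by simp [mul_comm]
    omega

/-- the block `j` -/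
def blk (e l r : ℕ) (j : Fin r) : Finset (W e l r) := univ.filter (fun x => x.2 = j)

theorem blk_card (e l r : ℕ) (j : Fin r) : (blk e l r j).card = 3 * e + 2 * l := by
  have : blk e l r j = (univ : Finset (K e l)).map ⟨fun k => (k, j), fun a b h => by simpa using h⟩ := by
    ext ⟨k, i⟩
    rw [blk, mem_filter, mem_map]
    constructor
    · rintro ⟨-, h⟩
      exact ⟨k, mem_univ _, Prod.ext rfl h.symm⟩
    · rintro ⟨a, -, h⟩
      exact ⟨mem_univ _, (congrArg Prod.snd h).symm⟩
  rw [this, card_map, card_univ]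
  simp only [Fintype.card_sum, Fintype.card_prod, Fintype.card_fin]
  ring

theorem blk_disj (e l r : ℕ) (i j : Fin r) (h : i ≠ j) :
    Disjoint (blk e l r i) (blk e l r j) := by
  rw [disjoint_left]
  intro x hx hx'
  simp only [blk, mem_filter, mem_univ, true_and] at hx hx'
  exact h (hx.symm.trans hx')

theorem pat_rainbow {e l : ℕ} {x y z : K e l} (hxy : x ≠ y) (hxz : x ≠ z) (hyz : y ≠ z) :
    pat x y z = false := by
  rcases x with x | x <;> rcases y with y | y <;> rcases z with z | z <;> simp only [pat]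
  · by_contra h
    simp only [Bool.not_eq_false, Bool.and_eq_true, beq_iff_eq] at h
    obtain ⟨⟨h1, h2⟩, h3⟩ := h
    rw [cyc_rainbow] at h3
    · exact absurd h3 (by decide)
    · intro e; exact hxy (by rw [Prod.ext h1 e])
    · intro e; exact hxz (by rw [Prod.ext (h1.trans h2) e])
    · intro e; exact hyz (by rw [Prod.ext h2 e])
  · by_contra h
    simp only [Bool.not_eq_false, Bool.and_eq_true, beq_iff_eq] at h
    obtain ⟨h1, h2⟩ := h
    have a1 : x.2 ≠ y.2 := fun e => hxy (by rw [Prod.ext h1 e])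
    have a2 : x.2 ≠ z.2 := fun e => hxz (by rw [Prod.ext (h1.trans h2) e])
    have a3 : y.2 ≠ z.2 := fun e => hyz (by rw [Prod.ext h2 e])
    have key : ∀ a b c : Fin 2, a ≠ b → a ≠ c → b ≠ c → False := by decide
    exact key _ _ _ a1 a2 a3

/-- the missing pair of colours -/
def mp {e l : ℕ} : K e l → K e l × K e l
  | Sum.inl x => (Sum.inl x, Sum.inl (x.1, x.2 + 1))
  | Sum.inr x => (Sum.inr (x.1, 0), Sum.inr (x.1, 1))

theorem mp_ne {e l : ℕ} (x : K e l) : (mp x).1 ≠ (mp x).2 := by
  rcases x with x | x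
  · simp only [mp, ne_eq, Sum.inl.injEq]
    intro h
    have := congrArg Prod.snd h
    simp only at this
    have key : ∀ i : Fin 3, i ≠ i + 1 := by decide
    exact key _ this
  · simp [mp]

theorem pat_mp {e l : ℕ} (x : K e l) : pat x (mp x).1 (mp x).2 = true := by
  rcases x with x | x
  · have key : ∀ i : Fin 3, cyc i i (i + 1) = true := by decide
    simp [mp, pat, key]
  · simp [mp, pat]

theorem pat_iff {e l : ℕ} {x y z : K e l} (hyz : y ≠ z) (h : pat x y z = true) :
    (y = (mp x).1 ∧ z = (mp x).2) ∨ (y = (mp x).2 ∧ z = (mp x).1) := by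
  rcases x with x | x <;> rcases y with y | y <;> rcases z with z | z <;>
    simp only [pat] at h
  · simp only [Bool.and_eq_true, beq_iff_eq] at h
    obtain ⟨⟨h1, h2⟩, h3⟩ := h
    have hne : y.2 ≠ z.2 := fun e => hyz (by rw [Prod.ext h2 e])
    rcases (cyc_pair _ _ _ hne).mp h3 with ⟨a, b⟩ | ⟨a, b⟩
    · left
      simp only [mp, Sum.inl.injEq]
      exact ⟨Prod.ext h1.symm a, Prod.ext (h1.trans h2).symm b⟩
    · right
      simp only [mp, Sum.inl.injEq]
      exact ⟨Prod.ext h1.symm a, Prod.ext (h1.trans h2).symm b⟩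
  all_goals try exact absurd h (by decide)
  simp only [Bool.and_eq_true, beq_iff_eq] at h
  obtain ⟨h1, h2⟩ := h
  have hne : y.2 ≠ z.2 := fun e => hyz (by rw [Prod.ext h2 e])
  have key : ∀ a b : Fin 2, a ≠ b → (a = 0 ∧ b = 1) ∨ (a = 1 ∧ b = 0) := by decide
  rcases key _ _ hne with ⟨a, b⟩ | ⟨a, b⟩
  · left
    simp only [mp, Sum.inr.injEq]
    exact ⟨Prod.ext h1.symm a, Prod.ext (h1.trans h2).symm b⟩
  · right
    simp only [mp, Sum.inr.injEq]
    exact ⟨Prod.ext h1.symm a, Prod.ext (h1.trans h2).symm b⟩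

theorem con_good {e l r : ℕ} {j : Fin r} {x : W e l r} (hx : x ∉ blk e l r j) :
    Good (con e l r) (blk e l r j) x := by
  have hxj : x.2 ≠ j := by simpa [blk] using hx
  have hb : ∀ k : K e l, ((k, j) : W e l r) ∈ blk e l r j := by intro k; simp [blk]
  have hb' : ∀ y ∈ blk e l r j, y = (y.1, j) := by
    intro y hy
    simp only [blk, mem_filter, mem_univ, true_and] at hy
    exact Prod.ext rfl hy
  have hnone : ∀ t ∈ con e l r, ¬ t ⊆ blk e l r j := by
    intro t ht hsub
    simp only [con, mem_filter, mem_powersetCard] at ht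
    obtain ⟨-, a, ha, b, hb, c, hc, hab, hac, hbc, h⟩ := ht
    have e1 := hb' a (hsub ha)
    have e2 := hb' b (hsub hb)
    have e3 := hb' c (hsub hc)
    rw [pat_rainbow] at h
    · exact absurd h (by decide)
    · intro e; apply hab; rw [e1, e2, e]
    · intro e; apply hac; rw [e1, e3, e]
    · intro e; apply hbc; rw [e2, e3, e]
  refine ⟨hnone, ?_⟩
  rw [card_eq_one]
  set y0 : W e l r := ((mp x.1).1, j) with hy0
  set z0 : W e l r := ((mp x.1).2, j) with hz0
  have hyz : y0 ≠ z0 := fun e => mp_ne x.1 (congrArg Prod.fst e)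
  have hxy : x ≠ y0 := fun e => hxj (by rw [e])
  have hxz : x ≠ z0 := fun e => hxj (by rw [e])
  refine ⟨{x, y0, z0}, ?_⟩
  ext t
  simp only [mem_filter, mem_singleton]
  constructor
  · rintro ⟨ht, hsub⟩
    have hxt : x ∈ t := by
      by_contra hn
      exact hnone t ht ((subset_insert_iff_of_notMem hn).mp hsub)
    have h3 : t.card = 3 := ((con_cov e l r).1 t ht)
    have h2 : (t.erase x).card = 2 := by rw [card_erase_of_mem hxt, h3]
    obtain ⟨y, z, hne, he⟩ := card_eq_two.mp h2
    have hte : t = {x, y, z} := by rw [← insert_erase hxt, he]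
    have hy : y ∈ t.erase x := by rw [he]; simp
    have hz : z ∈ t.erase x := by rw [he]; simp
    rw [mem_erase] at hy hz
    have hyB : y ∈ blk e l r j := by
      have := hsub hy.2
      rw [mem_insert] at this
      exact this.resolve_left hy.1
    have hzB : z ∈ blk e l r j := by
      have := hsub hz.2
      rw [mem_insert] at this
      exact this.resolve_left hz.1
    rw [hte] at ht ⊢
    have hp := (mem_con hy.1.symm hz.1.symm hne).mp ht
    have e1 := hb' y hyB
    have e2 := hb' z hzB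
    have hne1 : y.1 ≠ z.1 := by intro e; apply hne; rw [e1, e2, e]
    rcases pat_iff hne1 hp with ⟨a, b⟩ | ⟨a, b⟩
    · rw [e1, e2, a, b]
    · rw [e1, e2, a, b, hy0, hz0]
      rw [pair_comm]
  · rintro rfl
    refine ⟨(mem_con hxy hxz hyz).mpr (pat_mp x.1), ?_⟩
    intro t ht
    simp only [mem_insert, mem_singleton] at ht ⊢
    rcases ht with rfl | rfl | rfl
    · exact Or.inl rfl
    · exact Or.inr (hb _)
    · exact Or.inr (hb _)

/-- the indicator of the pattern -/
def pw {e l : ℕ} (x y z : K e l) : ℤ := if pat x y z = true then 1 else 0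

theorem pat_count (e l : ℕ) : ∑ x : K e l, ∑ y : K e l, ∑ z : K e l, pw x y z =
    12 * e + 8 * l := by
  have hc : ∑ i : Fin 3, ∑ j : Fin 3, ∑ k : Fin 3, (if cyc i j k = true then (1 : ℤ) else 0) = 12 := by
    decide
  have h1 : ∀ x : Fin e × Fin 3, ∑ y : K e l, ∑ z : K e l, pw (Sum.inl x) y z =
      ∑ j : Fin 3, ∑ k : Fin 3, (if cyc x.2 j k = true then (1 : ℤ) else 0) := by
    intro x
    rw [Fintype.sum_sum_type]
    have e1 : ∀ y : Fin l × Fin 2, ∑ z : K e l, pw (Sum.inl x : K e l) (Sum.inr y) z = 0 := by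
      intro y; simp [pw, pat, Fintype.sum_sum_type]
    have e2 : ∀ y : Fin e × Fin 3, ∑ z : K e l, pw (Sum.inl x : K e l) (Sum.inl y) z =
        if x.1 = y.1 then ∑ k : Fin 3, (if cyc x.2 y.2 k = true then (1 : ℤ) else 0) else 0 := by
      intro y
      rw [Fintype.sum_sum_type]
      have e3 : ∑ z : Fin l × Fin 2, pw (Sum.inl x : K e l) (Sum.inl y) (Sum.inr z) = 0 := by
        simp [pw, pat]
      rw [e3, add_zero, Fintype.sum_prod_type]
      by_cases hxy : x.1 = y.1
      · rw [if_pos hxy]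
        have : ∀ a : Fin e, ∑ k : Fin 3, pw (Sum.inl x : K e l) (Sum.inl y) (Sum.inl (a, k)) =
            if y.1 = a then ∑ k : Fin 3, (if cyc x.2 y.2 k = true then (1 : ℤ) else 0) else 0 := by
          intro a
          by_cases ha : y.1 = a
          · rw [if_pos ha]
            refine sum_congr rfl fun k _ => ?_
            simp [pw, pat, hxy, ha]
          · rw [if_neg ha]
            refine sum_eq_zero fun k _ => ?_
            simp [pw, pat, ha]
        simp only [this, sum_ite_eq, mem_univ, if_true]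
      · rw [if_neg hxy]
        refine sum_eq_zero fun a _ => sum_eq_zero fun k _ => ?_
        simp [pw, pat, hxy]
    simp only [e1, e2, sum_const_zero, add_zero]
    rw [Fintype.sum_prod_type, sum_comm]
    simp only [sum_ite_eq, mem_univ, if_true]
  have h2 : ∀ x : Fin l × Fin 2, ∑ y : K e l, ∑ z : K e l, pw (Sum.inr x) y z = 4 := by
    intro x
    rw [Fintype.sum_sum_type]
    have e1 : ∀ y : Fin e × Fin 3, ∑ z : K e l, pw (Sum.inr x : K e l) (Sum.inl y) z = 0 := by
      intro y; simp [pw, pat, Fintype.sum_sum_type]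
    have e2 : ∀ y : Fin l × Fin 2, ∑ z : K e l, pw (Sum.inr x : K e l) (Sum.inr y) z =
        if x.1 = y.1 then 2 else 0 := by
      intro y
      rw [Fintype.sum_sum_type]
      have e3 : ∑ z : Fin e × Fin 3, pw (Sum.inr x : K e l) (Sum.inr y) (Sum.inl z) = 0 := by
        simp [pw, pat]
      rw [e3, zero_add, Fintype.sum_prod_type]
      by_cases hxy : x.1 = y.1
      · rw [if_pos hxy]
        have : ∀ a : Fin l, ∑ k : Fin 2, pw (Sum.inr x : K e l) (Sum.inr y) (Sum.inr (a, k)) =
            if y.1 = a then 2 else 0 := by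
          intro a
          by_cases ha : y.1 = a
          · simp [pw, pat, hxy, ha]
          · simp [pw, pat, ha]
        simp only [this, sum_ite_eq, mem_univ, if_true]
      · rw [if_neg hxy]
        refine sum_eq_zero fun a _ => sum_eq_zero fun k _ => ?_
        simp [pw, pat, hxy]
    simp only [e1, e2, sum_const_zero, zero_add]
    rw [Fintype.sum_prod_type, sum_comm]
    simp only [sum_ite_eq, mem_univ, if_true]
    norm_num
  rw [Fintype.sum_sum_type]
  simp only [h1, h2]
  rw [Fintype.sum_prod_type]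
  simp only [hc, sum_const, card_univ, Fintype.card_prod, Fintype.card_fin, smul_eq_mul,
    nsmul_eq_mul]
  push_cast
  ring

theorem pat_count2 (e l : ℕ) : ∑ x : K e l, ∑ z : K e l, pw x x z = 6 * e + 4 * l := by
  have hc : ∑ i : Fin 3, ∑ k : Fin 3, (if cyc i i k = true then (1 : ℤ) else 0) = 6 := by
    decide
  have h1 : ∀ x : Fin e × Fin 3, ∑ z : K e l, pw (Sum.inl x) (Sum.inl x) z =
      ∑ k : Fin 3, (if cyc x.2 x.2 k = true then (1 : ℤ) else 0) := by
    intro x
    rw [Fintype.sum_sum_type]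
    have e3 : ∑ z : Fin l × Fin 2, pw (Sum.inl x : K e l) (Sum.inl x) (Sum.inr z) = 0 := by
      simp [pw, pat]
    rw [e3, add_zero, Fintype.sum_prod_type]
    have : ∀ a : Fin e, ∑ k : Fin 3, pw (Sum.inl x : K e l) (Sum.inl x) (Sum.inl (a, k)) =
        if x.1 = a then ∑ k : Fin 3, (if cyc x.2 x.2 k = true then (1 : ℤ) else 0) else 0 := by
      intro a
      by_cases ha : x.1 = a
      · rw [if_pos ha]
        refine sum_congr rfl fun k _ => ?_
        simp [pw, pat, ha]
      · rw [if_neg ha]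
        refine sum_eq_zero fun k _ => ?_
        simp [pw, pat, ha]
    simp only [this, sum_ite_eq, mem_univ, if_true]
  have h2 : ∀ x : Fin l × Fin 2, ∑ z : K e l, pw (Sum.inr x) (Sum.inr x) z = 2 := by
    intro x
    rw [Fintype.sum_sum_type]
    have e3 : ∑ z : Fin e × Fin 3, pw (Sum.inr x : K e l) (Sum.inr x) (Sum.inl z) = 0 := by
      simp [pw, pat]
    rw [e3, zero_add, Fintype.sum_prod_type]
    have : ∀ a : Fin l, ∑ k : Fin 2, pw (Sum.inr x : K e l) (Sum.inr x) (Sum.inr (a, k)) =
        if x.1 = a then 2 else 0 := by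
      intro a
      by_cases ha : x.1 = a
      · simp [pw, pat, ha]
      · simp [pw, pat, ha]
    simp only [this, sum_ite_eq, mem_univ, if_true]
  rw [Fintype.sum_sum_type]
  simp only [h1, h2]
  rw [Fintype.sum_prod_type]
  simp only [hc, sum_const, card_univ, Fintype.card_prod, Fintype.card_fin, smul_eq_mul,
    nsmul_eq_mul]
  push_cast
  ring

theorem pat_count1 (e l : ℕ) : ∑ x : K e l, pw x x x = 3 * e + 2 * l := by
  have : ∀ x : K e l, pw x x x = 1 := by
    intro x
    have key : ∀ i : Fin 3, cyc i i i = true := by decide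
    rcases x with x | x <;> simp [pw, pat, key]
  simp only [this, sum_const, card_univ, Fintype.card_sum, Fintype.card_prod, Fintype.card_fin,
    nsmul_eq_mul, mul_one]
  push_cast
  ring

/-- each member of `T` gives at least six ordered triples -/
theorem six_le {V : Type*} [Fintype V] [DecidableEq V] {T : Finset (Finset V)}
    (hT : ∀ t ∈ T, t.card = 3) :
    6 * (T.card : ℤ) ≤ ∑ x : V, ∑ y : V, ∑ z : V, (if x ≠ y ∧ x ≠ z ∧ y ≠ z ∧
      ({x, y, z} : Finset V) ∈ T then (1 : ℤ) else 0) := by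
  have h1 : ∑ x : V, ∑ y : V, ∑ z : V, (if x ≠ y ∧ x ≠ z ∧ y ≠ z ∧
      ({x, y, z} : Finset V) ∈ T then (1 : ℤ) else 0) =
      ((univ.filter (fun p : V × V × V => p.1 ≠ p.2.1 ∧ p.1 ≠ p.2.2 ∧ p.2.1 ≠ p.2.2 ∧
        ({p.1, p.2.1, p.2.2} : Finset V) ∈ T)).card : ℤ) := by
    rw [card_filter, ← univ_product_univ, sum_product]
    push_cast
    refine sum_congr rfl fun x _ => ?_
    rw [← univ_product_univ, sum_product]
  rw [h1]
  have h2 : (univ.filter (fun p : V × V × V => p.1 ≠ p.2.1 ∧ p.1 ≠ p.2.2 ∧ p.2.1 ≠ p.2.2 ∧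
        ({p.1, p.2.1, p.2.2} : Finset V) ∈ T)).card =
      ∑ t ∈ T, ((univ.filter (fun p : V × V × V => p.1 ≠ p.2.1 ∧ p.1 ≠ p.2.2 ∧ p.2.1 ≠ p.2.2 ∧
        ({p.1, p.2.1, p.2.2} : Finset V) ∈ T)).filter
          (fun p => ({p.1, p.2.1, p.2.2} : Finset V) = t)).card :=
    card_eq_sum_card_fiberwise (f := fun p : V × V × V => ({p.1, p.2.1, p.2.2} : Finset V))
      (t := T) (by intro p hp; simp only [coe_filter, mem_univ, true_and] at hp; exact hp.2.2.2)
  have h3 : ∑ t ∈ T, 6 ≤ ∑ t ∈ T, ((univ.filter (fun p : V × V × V => p.1 ≠ p.2.1 ∧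
        p.1 ≠ p.2.2 ∧ p.2.1 ≠ p.2.2 ∧ ({p.1, p.2.1, p.2.2} : Finset V) ∈ T)).filter
          (fun p => ({p.1, p.2.1, p.2.2} : Finset V) = t)).card := by
    refine sum_le_sum fun t ht => ?_
    obtain ⟨a, b, c, hab, hac, hbc, rfl⟩ := card_eq_three.mp (hT t ht)
    have hsub : ({(a, b, c), (a, c, b), (b, a, c), (b, c, a), (c, a, b), (c, b, a)} :
        Finset (V × V × V)) ⊆ ((univ.filter (fun p : V × V × V => p.1 ≠ p.2.1 ∧
        p.1 ≠ p.2.2 ∧ p.2.1 ≠ p.2.2 ∧ ({p.1, p.2.1, p.2.2} : Finset V) ∈ T)).filter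
          (fun p => ({p.1, p.2.1, p.2.2} : Finset V) = {a, b, c})) := by
      have e1 : ({a, c, b} : Finset V) = {a, b, c} := by
        ext w; simp only [mem_insert, mem_singleton]; tauto
      have e2 : ({b, a, c} : Finset V) = {a, b, c} := by
        ext w; simp only [mem_insert, mem_singleton]; tauto
      have e3 : ({b, c, a} : Finset V) = {a, b, c} := by
        ext w; simp only [mem_insert, mem_singleton]; tauto
      have e4 : ({c, a, b} : Finset V) = {a, b, c} := by
        ext w; simp only [mem_insert, mem_singleton]; tauto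
      have e5 : ({c, b, a} : Finset V) = {a, b, c} := by
        ext w; simp only [mem_insert, mem_singleton]; tauto
      intro p hp
      simp only [mem_insert, mem_singleton] at hp
      rcases hp with rfl | rfl | rfl | rfl | rfl | rfl <;>
        simp only [mem_filter, mem_univ, true_and]
      · exact ⟨⟨hab, hac, hbc, ht⟩, trivial⟩
      · exact ⟨⟨hac, hab, hbc.symm, by rw [e1]; exact ht⟩, e1⟩
      · exact ⟨⟨hab.symm, hbc, hac, by rw [e2]; exact ht⟩, e2⟩
      · exact ⟨⟨hbc, hab.symm, hac.symm, by rw [e3]; exact ht⟩, e3⟩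
      · exact ⟨⟨hac.symm, hbc.symm, hab, by rw [e4]; exact ht⟩, e4⟩
      · exact ⟨⟨hbc.symm, hac.symm, hab.symm, by rw [e5]; exact ht⟩, e5⟩
    refine le_trans ?_ (card_le_card hsub)
    rw [card_insert_of_notMem (by simp [hbc, hab, hac, hbc.symm]),
      card_insert_of_notMem (by simp [hab, hac, hbc, hbc.symm]),
      card_insert_of_notMem (by simp [hac, hac.symm, hbc]),
      card_insert_of_notMem (by simp [hbc]),
      card_insert_of_notMem (by simp [hab]), card_singleton]
  rw [h2]
  rw [sum_const, smul_eq_mul] at h3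
  have : 6 * T.card = T.card * 6 := mul_comm _ _
  exact_mod_cast this ▸ h3

theorem con_card (e l r : ℕ) :
    3 * ((con e l r).card : ℤ) ≤ (3 * e + 2 * l) * r * (r - 1) * (2 * r - 1) := by
  have h6 := six_le (con_cov e l r).1
  have hpt : ∀ x y z : W e l r, (if x ≠ y ∧ x ≠ z ∧ y ≠ z ∧
      ({x, y, z} : Finset (W e l r)) ∈ con e l r then (1 : ℤ) else 0) =
      pw x.1 y.1 z.1 - (if x = y then pw x.1 x.1 z.1 else 0) -
        (if x = z then pw x.1 x.1 y.1 else 0) - (if y = z then pw y.1 y.1 x.1 else 0) +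
        2 * (if x = y then (if x = z then pw x.1 x.1 x.1 else 0) else 0) := by
    intro x y z
    by_cases hxy : x = y
    · subst hxy
      by_cases hxz : x = z
      · subst hxz; simp; ring
      · simp only [ne_eq, not_true_eq_false, false_and, if_false, if_true, if_neg hxz]; ring
    · by_cases hxz : x = z
      · subst hxz
        have : pw x.1 y.1 x.1 = pw x.1 x.1 y.1 := by unfold pw; rw [pat_swap']
        simp only [ne_eq, not_true_eq_false, false_and, and_false, if_false, if_true, if_neg hxy,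
          if_neg (Ne.symm hxy), this]; ring
      · by_cases hyz : y = z
        · subst hyz
          have : pw x.1 y.1 y.1 = pw y.1 y.1 x.1 := by
            unfold pw; rw [pat_swap, pat_swap']
          rw [if_neg (by tauto), if_neg hxy, if_neg hxy, if_pos rfl, this]
          ring
        · have := mem_con hxy hxz hyz
          simp only [ne_eq, hxy, hxz, hyz, not_false_eq_true, true_and, if_false, this, pw]
          ring
  simp only [hpt, sum_add_distrib, sum_sub_distrib] at h6
  have c0 : ∑ x : W e l r, ∑ y : W e l r, ∑ z : W e l r, pw x.1 y.1 z.1 =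
      r ^ 3 * (12 * e + 8 * l) := by
    rw [← pat_count e l]
    simp only [Fintype.sum_prod_type, sum_const, card_univ, Fintype.card_fin, nsmul_eq_mul,
      ← mul_sum]
    ring
  have c2 : ∑ x : W e l r, ∑ z : W e l r, pw x.1 x.1 z.1 = r ^ 2 * (6 * e + 4 * l) := by
    rw [← pat_count2 e l]
    simp only [Fintype.sum_prod_type, sum_const, card_univ, Fintype.card_fin, nsmul_eq_mul,
      ← mul_sum]
    ring
  have c3 : ∑ x : W e l r, pw x.1 x.1 x.1 = r * (3 * e + 2 * l) := by
    rw [← pat_count1 e l]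
    simp only [Fintype.sum_prod_type, sum_const, card_univ, Fintype.card_fin, nsmul_eq_mul,
      ← mul_sum]
  have d1 : ∑ x : W e l r, ∑ y : W e l r, ∑ z : W e l r, (if x = y then pw x.1 x.1 z.1 else 0) =
      r ^ 2 * (6 * e + 4 * l) := by
    rw [← c2]
    refine sum_congr rfl fun x _ => ?_
    rw [sum_comm]
    simp only [sum_ite_eq, mem_univ, if_true]
  have d2 : ∑ x : W e l r, ∑ y : W e l r, ∑ z : W e l r, (if x = z then pw x.1 x.1 y.1 else 0) =
      r ^ 2 * (6 * e + 4 * l) := by
    rw [← c2]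
    simp only [sum_ite_eq, mem_univ, if_true]
  have d3 : ∑ x : W e l r, ∑ y : W e l r, ∑ z : W e l r, (if y = z then pw y.1 y.1 x.1 else 0) =
      r ^ 2 * (6 * e + 4 * l) := by
    rw [← c2]
    simp only [sum_ite_eq, mem_univ, if_true]
    rw [sum_comm]
  have d4 : ∑ x : W e l r, ∑ y : W e l r, ∑ z : W e l r,
      2 * (if x = y then (if x = z then pw x.1 x.1 x.1 else 0) else 0) =
      2 * (r * (3 * e + 2 * l)) := by
    have hx : ∀ x : W e l r, ∑ y : W e l r, ∑ z : W e l r,
        2 * (if x = y then (if x = z then pw x.1 x.1 x.1 else 0) else 0) =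
        2 * pw x.1 x.1 x.1 := by
      intro x
      have hy : ∀ y : W e l r, ∑ z : W e l r,
          2 * (if x = y then (if x = z then pw x.1 x.1 x.1 else 0) else 0) =
          if x = y then 2 * pw x.1 x.1 x.1 else 0 := by
        intro y
        by_cases hxy : x = y
        · simp only [if_pos hxy]
          rw [← mul_sum, sum_ite_eq, if_pos (mem_univ _)]
        · simp only [if_neg hxy, mul_zero, sum_const_zero]
      simp only [hy]
      rw [sum_ite_eq, if_pos (mem_univ _)]
    rw [sum_congr rfl fun x _ => hx x, ← mul_sum, c3]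
  rw [c0, d1, d2, d3, d4] at h6
  have e0 : ((3 * e + 2 * l) * r * (r - 1) * (2 * r - 1) : ℤ) * 2 =
      r ^ 3 * (12 * e + 8 * l) - r ^ 2 * (6 * e + 4 * l) - r ^ 2 * (6 * e + 4 * l) -
        r ^ 2 * (6 * e + 4 * l) + 2 * (r * (3 * e + 2 * l)) := by ring
  linarith

end con

end Run7.h678.KM
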